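import Pool.Agent.TH906.WP.Tri

set_option autoImplicit false

/-!
# Cutting off a corner of slope sum `t` and flattening
-/

namespace Pool.Agent.TH906.WP

open Finset Pool.Agent.TH176.Nag Pool.Agent.TH181.NagM Pool.Agent.H350R3

/-- cutting off a corner -/
theorem Emp_corner {ι κ : Type} [Finite ι] [Finite κ] {w : ι → ℕ} {v : κ → ℕ}
    {A s s1 μ ν k : ℝ} (hN : 0 < μ + ν) (hw : Emp w (Reg A (A + s1) μ k))
    (hv : Emp v {m : ℤ × ℤ | m ∈ Reg A (A + s) μ ν ∧ A + s1 ≤ (m.1 : ℝ) + k * (m.2 : ℝ)}) :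
    Emp (Sum.elim w v) (Reg A (A + s) μ ν) := by
  have hfin : (Reg A (A + s) μ ν).Finite := Reg_finite hN
  obtain ⟨B, hB⟩ := (hfin.image Prod.fst).bddBelow
  have hB' : ∀ m ∈ Reg A (A + s) μ ν, B ≤ m.1 := fun m hm => hB ⟨m, hm, rfl⟩
  obtain ⟨S, hS⟩ : ∃ S : Set (ℤ × ℤ), S = {m | ((m.1 + B, m.2) : ℤ × ℤ) ∈ Reg A (A + s) μ ν ∧
      (m.1 + B : ℝ) + k * m.2 ≤ A + s1} := ⟨_, rfl⟩
  obtain ⟨U, hU⟩ : ∃ U : Set (ℤ × ℤ), U = {m | ((m.1 + B, m.2) : ℤ × ℤ) ∈ Reg A (A + s) μ ν ∧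
      A + s1 < (m.1 + B : ℝ) + k * m.2} := ⟨_, rfl⟩
  have hinj : Function.Injective (fun m : ℤ × ℤ => ((m.1 + B, m.2) : ℤ × ℤ)) := by
    rintro ⟨a, b⟩ ⟨c, d⟩ h
    simp only [Prod.mk.injEq, add_left_inj] at h
    exact Prod.ext h.1 h.2
  have hpre : {m : ℤ × ℤ | ((m.1 + B, m.2) : ℤ × ℤ) ∈ Reg A (A + s) μ ν}.Finite :=
    hfin.preimage hinj.injOn
  have hSf : S.Finite := hpre.subset (by rw [hS]; exact fun m hm => hm.1)
  have hUf : U.Finite := hpre.subset (by rw [hU]; exact fun m hm => hm.1)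
  have hpos : ∀ m : ℤ × ℤ, ((m.1 + B, m.2) : ℤ × ℤ) ∈ Reg A (A + s) μ ν → 0 ≤ m.1 ∧ 0 ≤ m.2 := by
    intro m hm
    have h1 := hB' _ hm
    simp only at h1
    exact ⟨by omega, hm.1⟩
  have h1 : Emp w S := by
    refine hw.comap 1 0 0 1 B 0 (by norm_num) ?_
    intro m hm
    rw [hS] at hm
    obtain ⟨⟨g1, g2, g3⟩, g4⟩ := hm
    simp only at g1 g2 g3
    push_cast at g2 g3
    refine ⟨by simp only; omega, ?_, ?_⟩
    · simp only; push_cast; linarith
    · simp only; push_cast; linarith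
  have h2 : Emp v U := by
    refine hv.comap 1 0 0 1 B 0 (by norm_num) ?_
    intro m hm
    rw [hU] at hm
    obtain ⟨⟨g1, g2, g3⟩, g4⟩ := hm
    simp only at g1 g2 g3
    push_cast at g2 g3
    refine ⟨⟨by simp only; omega, ?_, ?_⟩, ?_⟩
    · simp only; push_cast; linarith
    · simp only; push_cast; linarith
    · simp only; push_cast; linarith
  obtain ⟨a, b, hab⟩ := exists_int_sep hSf hUf 1 k (by
    intro m hm m' hm'
    rw [hS] at hm
    rw [hU] at hm'
    have g1 := hm.2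
    have g2 := hm'.2
    linarith)
  have h3 := Pool.Agent.TH698.NagT3.Emp_cut hSf hUf
    (fun m hm => hpos m (by rw [hS] at hm; exact hm.1))
    (fun m hm => hpos m (by rw [hU] at hm; exact hm.1)) a b hab h1 h2
  refine h3.comap 1 0 0 1 (-B) 0 (by norm_num) ?_
  intro m hm
  have e : ((1 * m.1 + 0 * m.2 + -B + B, 0 * m.1 + 1 * m.2 + 0) : ℤ × ℤ) = m := by
    ext
    · simp only; ring
    · simp only; ring
  by_cases hc : ((1 * m.1 + 0 * m.2 + -B : ℤ) : ℝ) + B + k * ((0 * m.1 + 1 * m.2 + 0 : ℤ) : ℝ) ≤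
      A + s1
  · left
    rw [hS]
    exact ⟨by simp only; rw [e]; exact hm, hc⟩
  · right
    rw [hU]
    push Not at hc
    exact ⟨by simp only; rw [e]; exact hm, hc⟩

/-- flattening a triangle with a corner cut off -/
theorem flat_corner {ι : Type} {b : ι → ℕ} {μ ν t : ℝ} {u v : ℤ}
    (hco : IsCoprime u v) (hu : 0 ≤ u) (ht : 0 ≤ t)
    (hh : 0 ≤ u * μ + v) (hN : 0 < μ + ν) {c l : ℝ} (hc : c = max (u : ℝ) ((u * μ + v) / (μ + ν)))
    (hl : l = min (u : ℝ) ((u * μ + v) / t)) {A s s1 : ℝ}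
    (h : ∀ A' : ℝ, Emp b (Reg A' (A' + (c * s - l * s1))
      (u * (u * μ + v) - t * l ^ 2) (c ^ 2 * (μ + ν) - u * (u * μ + v)))) :
    Emp b {m : ℤ × ℤ | m ∈ Reg A (A + s) μ ν ∧ A + s1 ≤ (m.1 : ℝ) + (t - μ) * (m.2 : ℝ)} := by
  obtain ⟨p, q, hpq⟩ := hco
  have hu' : (0 : ℝ) ≤ u := by exact_mod_cast hu
  obtain ⟨H, hH⟩ : ∃ H : ℝ, H = u * μ + v := ⟨_, rfl⟩
  rw [← hH] at hh hc hl
  refine (NagSys.Emp (ι := ι)).flat u v p q (by linarith) ?_ (h (u * A + l * s1))
  rintro ⟨x1, y1⟩ T k ⟨⟨hb, hlb, hrb⟩, hcb⟩ ⟨⟨hb', hlb', hrb'⟩, hcb'⟩ hk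
  simp only at hb hlb hrb hb' hlb' hrb' hcb hcb'
  push_cast at hlb' hrb' hcb'
  have hb0 : (0 : ℝ) ≤ y1 := by exact_mod_cast hb
  have hk' : (k : ℝ) ≤ T := by exact_mod_cast hk
  have hk0 : (0 : ℝ) ≤ (k : ℝ) := Nat.cast_nonneg k
  have hT0 : (0 : ℝ) ≤ T := hk0.trans hk'
  rw [← hH]
  obtain ⟨X, hX⟩ : ∃ X : ℝ, X = x1 - v * T := ⟨_, rfl⟩
  obtain ⟨Y, hY⟩ : ∃ Y : ℝ, Y = y1 + u * T := ⟨_, rfl⟩
  rw [← hX, ← hY] at hlb' hrb' hcb'
  have hval : (u : ℝ) * x1 + v * y1 = u * X + v * Y := by rw [hX, hY]; ring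
  have huT : (u : ℝ) * T ≤ Y := by rw [hY]; linarith
  have hukT : (u : ℝ) * k ≤ u * T := mul_le_mul_of_nonneg_left hk' hu'
  have hY0 : 0 ≤ Y := le_trans (mul_nonneg hu' hT0) huT
  refine ⟨by simp, ?_, ?_⟩
  · -- the left edge
    simp only
    push_cast
    have v1 : u * A + H * Y ≤ u * x1 + v * y1 := by
      rw [hval, hH]
      linarith [mul_le_mul_of_nonneg_left hlb' hu']
    rcases ht.eq_or_lt with rfl | ht0
    · have hl0 : l = 0 := by
        rw [hl, div_zero]; exact min_eq_right hu'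
      have h5 : H * (u * k) ≤ H * Y := mul_le_mul_of_nonneg_left (hukT.trans huT) hh
      rw [hl0]
      simp only [zero_mul, sub_zero, add_zero]
      linarith
    rcases le_total (u : ℝ) (H / t) with h5 | h5
    · rw [min_eq_left h5] at hl
      rw [hl]
      rw [le_div_iff₀ ht0] at h5
      have h6 : (H - u * t) * (u * k) ≤ (H - u * t) * Y :=
        mul_le_mul_of_nonneg_left (hukT.trans huT) (by linarith)
      have h7 : u * (A + s1) ≤ u * (X + (t - μ) * Y) := mul_le_mul_of_nonneg_left hcb' hu'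
      have h8 : u * X + v * Y = u * (X + (t - μ) * Y) + (H - u * t) * Y := by
        rw [hH]; ring
      rw [hval, h8]
      linarith
    · rw [min_eq_right h5] at hl
      have hrl : t * l = H := by rw [hl]; field_simp
      have hlu : l ≤ u := by rw [hl]; exact h5
      have hl0 : 0 ≤ l := by rw [hl]; positivity
      have hu0 : (0 : ℝ) < u := by
        rcases hu'.eq_or_lt with h6 | h6
        · exfalso
          have h7 : l = 0 := by linarith
          have h8 : H = 0 := by rw [← hrl, h7, mul_zero]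
          have h9 : (v : ℝ) = 0 := by
            rw [h8, ← h6] at hH
            linarith
          have h10 : u = 0 := by exact_mod_cast h6.symm
          have h11 : v = 0 := by exact_mod_cast h9
          rw [h10, h11] at hpq
          simp at hpq
        · exact h6
      have w1 : l * (u * (A + s1) + (H - t * u) * y1) ≤ l * (u * x1 + v * y1) := by
        refine mul_le_mul_of_nonneg_left ?_ hl0
        have h6 := mul_le_mul_of_nonneg_left hcb hu'
        have h7 : (u : ℝ) * x1 + v * y1 = u * (x1 + (t - μ) * y1) + (H - t * u) * y1 := by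
          rw [hH]; ring
        rw [h7]
        linarith
      have w2 : (u - l) * (u * A + H * Y) ≤ (u - l) * (u * x1 + v * y1) :=
        mul_le_mul_of_nonneg_left v1 (by linarith)
      have w3 : (u - l) * H * k ≤ (u - l) * H * T :=
        mul_le_mul_of_nonneg_left hk' (mul_nonneg (by linarith) hh)
      have w4 : u * (u * A + l * s1 + (u - l) * H * T) ≤ u * (u * x1 + v * y1) := by
        have e5 : l * (u * (A + s1) + (H - t * u) * y1) + (u - l) * (u * A + H * Y) =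
            u * (u * A + l * s1 + (u - l) * H * T) := by
          rw [hY]
          linear_combination (-(u : ℝ) * y1) * hrl
        linarith
      have w5 := le_of_mul_le_mul_left w4 hu0
      have e6 : (u * H - t * l ^ 2) = (u - l) * H := by
        linear_combination (-l) * hrl
      rw [e6]
      linarith
  · -- the right edge
    simp only
    push_cast
    rcases le_total (u : ℝ) (H / (μ + ν)) with h5 | h5
    · rw [max_eq_right h5] at hc
      have hcN : c * (μ + ν) = H := by rw [hc]; field_simp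
      rw [le_div_iff₀ hN] at h5
      have p1 : 0 ≤ (H - u * (μ + ν)) * (X - (A + μ * Y)) :=
        mul_nonneg (by linarith) (by linarith)
      have p2 : 0 ≤ H * (A + s - ν * y1 - x1) := mul_nonneg hh (by linarith)
      have p3 : 0 ≤ (H - u * (μ + ν)) * H * (T - k) :=
        mul_nonneg (mul_nonneg (by linarith) hh) (by linarith)
      have e5 : (μ + ν) * (u * A + l * s1 + (c * s - l * s1) - (c ^ 2 * (μ + ν) - u * H) * k -
          (u * x1 + v * y1)) = (H - u * (μ + ν)) * (X - (A + μ * Y)) +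
          H * (A + s - ν * y1 - x1) + (H - u * (μ + ν)) * H * (T - k) := by
        rw [hX, hY]
        linear_combination (s - k * (c * (μ + ν) + H)) * hcN +
          ((μ + ν) * y1 - (H - u * (μ + ν)) * T) * hH
      have p4 : 0 ≤ (μ + ν) * (u * A + l * s1 + (c * s - l * s1) -
          (c ^ 2 * (μ + ν) - u * H) * k - (u * x1 + v * y1)) := by rw [e5]; linarith
      have p5 := nonneg_of_mul_nonneg_right p4 hN
      linarith
    · rw [max_eq_left h5] at hc
      rw [div_le_iff₀ hN] at h5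
      rw [hc]
      have h6 : v ≤ u * ν := by
        rw [hH] at h5
        linarith
      have h7 : (u * ν - v) * (u * k) ≤ (u * ν - v) * Y :=
        mul_le_mul_of_nonneg_left (hukT.trans huT) (by linarith)
      have h8 : u * X ≤ u * (A + s - ν * Y) := mul_le_mul_of_nonneg_left hrb' hu'
      have e7 : ((u : ℝ) ^ 2 * (μ + ν) - u * H) * k = (u * ν - v) * (u * k) := by
        rw [hH]; ring
      rw [hval, e7]
      linarith

/-- the step -/
theorem Gd.corner {μ ν t : ℝ} {m n : ℕ} {M' : Fin m → ℝ} {M : Fin n → ℝ} {u v : ℤ} {c l : ℝ}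
    (hco : IsCoprime u v) (hu : 0 ≤ u) (ht : 0 ≤ t) (hN : 0 < μ + ν)
    (hh : 0 ≤ u * μ + v) (hc : c = max (u : ℝ) ((u * μ + v) / (μ + ν)))
    (hl : l = min (u : ℝ) ((u * μ + v) / t)) (h' : Gd μ (t - μ) M')
    (h : Gd (u * (u * μ + v) - t * l ^ 2) (c ^ 2 * (μ + ν) - u * (u * μ + v)) M) :
    Gd μ ν (Fin.append (fun j => l / c * M' j) fun j => M j / c) := by
  have hc0 := cpos hco hu hN hh hc
  have hu' : (0 : ℝ) ≤ u := by exact_mod_cast hu
  have hl0 : 0 ≤ l := by rw [hl]; exact le_min hu' (by positivity)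
  intro w A s hs
  refine Emp_append w ?_
  rw [Fin.sum_univ_add] at hs
  simp only [Fin.append_left, Fin.append_right] at hs
  obtain ⟨X, hX⟩ : ∃ X : ℝ, X = ∑ j, M' j * (w (Fin.castAdd n j) : ℝ) := ⟨_, rfl⟩
  obtain ⟨Y, hY⟩ : ∃ Y : ℝ, Y = ∑ j, M j * (w (Fin.natAdd m j) : ℝ) := ⟨_, rfl⟩
  have e1 : ∑ j : Fin m, l / c * M' j * (w (Fin.castAdd n j) : ℝ) = l * X / c := by
    rw [hX, mul_sum, sum_div]
    exact sum_congr rfl fun j _ => by ring
  have e2 : ∑ j : Fin n, M j / c * (w (Fin.natAdd m j) : ℝ) = Y / c := by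
    rw [hY, sum_div]
    exact sum_congr rfl fun j _ => by ring
  rw [e1, e2, ← add_div, lt_div_iff₀ hc0] at hs
  obtain ⟨s1, h1, h2⟩ : ∃ s1 : ℝ, s1 < X ∧ c * s - l * s1 < Y := by
    obtain ⟨ε, hε⟩ : ∃ ε : ℝ, ε = (l * X + Y - s * c) / (l + 1) := ⟨_, rfl⟩
    have hε0 : 0 < ε := by rw [hε]; exact div_pos (by linarith) (by linarith)
    have hε1 : ε * (l + 1) = l * X + Y - s * c := by rw [hε]; field_simp
    refine ⟨X - ε, by linarith, ?_⟩
    have : l * ε < l * X + Y - s * c := by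
      rw [← hε1]
      nlinarith
    linarith
  refine Emp_corner (k := t - μ) (s1 := s1) hN (h' _ A s1 (by rw [← hX]; exact h1)) ?_
  exact flat_corner hco hu ht hh hN hc hl fun A' => h _ A' _ (by rw [← hY]; exact h2)

end Pool.Agent.TH906.WP
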