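import Pool.Agent.TH176.Nag.Flat

set_option autoImplicit false

/-!
# Absorption of a point in a corner

The new point is `(t, 1)` over the field of Laurent series in `t`, the other points are
`(x_i, 1 + t y_i)`.
-/

namespace Pool.Agent.TH906.WP

open Finset Pool.Agent.TH176.Nag

section
variable {K : Type} [Field K]

/-- the conditions at a point `(x, 1)` for the rows -/
theorem row_cond {f : (ℤ × ℤ) →₀ LaurentSeries K} (hf : ∀ m ∈ f.support, 0 ≤ m.2)
    {x : LaurentSeries K} [CharZero K] {w : ℕ} (h : LM f x 1 w) {k c : ℕ} (hkc : c + k < w) :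
    ∑ m ∈ f.support, ((m.2.toNat.choose k : LaurentSeries K) * f m) *
      ((m.1 : LaurentSeries K) ^ c * x ^ m.1) = 0 := by
  have h1 := h _ (PF_desc (K := LaurentSeries K) (a := c) (b := k) (w := w) hkc)
  have hk : ((k.factorial : ℕ) : LaurentSeries K) ≠ 0 := by
    exact_mod_cast Nat.factorial_ne_zero k
  have h2 : ((k.factorial : ℕ) : LaurentSeries K) *
      ∑ m ∈ f.support, ((m.2.toNat.choose k : LaurentSeries K) * f m) *
      ((m.1 : LaurentSeries K) ^ c * x ^ m.1) = 0 := by
    rw [← h1]
    unfold pr Finsupp.sum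
    rw [mul_sum]
    refine sum_congr rfl fun m hm => ?_
    obtain ⟨b, hb⟩ := Int.eq_ofNat_of_zero_le (hf m hm)
    have h3 : ∏ s ∈ range k, ((m.2 : LaurentSeries K) - (s : LaurentSeries K)) =
        (k.factorial : LaurentSeries K) * (b.choose k : LaurentSeries K) := by
      rw [← prod_desc_nat b k, hb]
      simp
    have h4 : m.2.toNat = b := by omega
    simp only
    rw [h3, h4, one_zpow]
    ring
  exact (mul_eq_zero.1 h2).resolve_left hk

/-- `t ^ a u` -/
theorem coeff_tv_zpow_mul (a : ℤ) (u : LaurentSeries K) (n : ℤ) :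
    (tv K ^ a * u).coeff n = u.coeff (n - a) := by
  have h : tv K ^ a = HahnSeries.single a (1 : K) := by
    have h1 : tv K = HahnSeries.single (1 : ℤ) (1 : K) := rfl
    rw [h1]
    rcases Int.le_total 0 a with ha | ha
    · obtain ⟨j, rfl⟩ := Int.eq_ofNat_of_zero_le ha
      rw [zpow_natCast, HahnSeries.single_pow]
      simp
    · obtain ⟨j, hj⟩ := Int.eq_ofNat_of_zero_le (neg_nonneg.2 ha)
      have h2 : a = -(j : ℤ) := by omega
      rw [h2, zpow_neg, zpow_natCast, HahnSeries.single_pow]
      rw [inv_eq_iff_eq_inv, eq_comm, inv_eq_of_mul_eq_one_left]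
      rw [HahnSeries.single_mul_single]
      simp
  rw [h]
  have h2 := HahnSeries.coeff_single_mul (r := (1 : K)) (x := u) (a := (n : ℤ)) (b := a)
  simpa using h2

/-- the leading coefficients of the leftmost terms of a row vanish -/
theorem row_vanish [CharZero K] {R : Finset ℤ} {u : ℤ → LaurentSeries K} {n : ℤ} {r : ℕ}
    (hu : ∀ a ∈ R, ∀ k < n, (u a).coeff k = 0)
    (hc : ∀ c < r, ∑ a ∈ R, u a * ((a : LaurentSeries K) ^ c * tv K ^ a) = 0)
    {a0 : ℤ} (ha0 : a0 ∈ R) (hlt : (R.filter (fun a => a < a0)).card < r) :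
    (u a0).coeff n = 0 := by
  classical
  -- the elements at most `a0`
  obtain ⟨T, hT⟩ : ∃ T, T = R.filter (fun a => a ≤ a0) := ⟨_, rfl⟩
  have hTcard : T.card ≤ r := by
    have h1 : T = insert a0 (R.filter (fun a => a < a0)) := by
      rw [hT]
      ext a
      simp only [mem_filter, mem_insert]
      constructor
      · rintro ⟨h1, h2⟩
        rcases eq_or_lt_of_le h2 with h3 | h3
        · exact Or.inl h3
        · exact Or.inr ⟨h1, h3⟩
      · rintro (h1 | ⟨h1, h2⟩)
        · rw [h1]; exact ⟨ha0, le_rfl⟩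
        · exact ⟨h1, h2.le⟩
    rw [h1]
    have := card_insert_le a0 (R.filter (fun a => a < a0))
    omega
  -- coefficient of `t ^ (n + a0)`
  have h2 : ∀ c < r, ∑ a ∈ T, (a : K) ^ c * (u a).coeff (n + a0 - a) = 0 := by
    intro c hcr
    have h3 := congrArg (fun z : LaurentSeries K => z.coeff (n + a0)) (hc c hcr)
    simp only [HahnSeries.coeff_zero] at h3
    rw [HahnSeries.coeff_sum] at h3
    have h4 : ∀ a ∈ R, (u a * ((a : LaurentSeries K) ^ c * tv K ^ a)).coeff (n + a0) =
        (a : K) ^ c * (u a).coeff (n + a0 - a) := by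
      intro a _
      have e : u a * ((a : LaurentSeries K) ^ c * tv K ^ a) =
          tv K ^ a * (cst ((a : K) ^ c) * u a) := by
        simp only [cst, map_pow, map_intCast]
        ring
      rw [e, coeff_tv_zpow_mul, coeff_cst_mul]
    rw [sum_congr rfl h4] at h3
    rw [← h3, hT, sum_filter]
    refine sum_congr rfl fun a ha => ?_
    split_ifs with h5
    · rfl
    · rw [hu a ha (n + a0 - a) (by omega), mul_zero]
  -- Vandermonde with integer nodes
  obtain ⟨N0, hN0⟩ : ∃ N0 : ℕ, ∀ a ∈ T, 0 ≤ a + (N0 : ℤ) := by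
    refine ⟨∑ a ∈ T, a.natAbs, fun a ha => ?_⟩
    have : a.natAbs ≤ ∑ a ∈ T, a.natAbs :=
      single_le_sum (f := fun a : ℤ => a.natAbs) (fun _ _ => Nat.zero_le _) ha
    omega
  have h3 : ∀ P : Polynomial K, P.natDegree < r → ∑ a ∈ T, P.eval (a : K) *
      (u a).coeff (n + a0 - a) = 0 := by
    intro P hP
    have h4 : ∑ a ∈ T, P.eval (a : K) * (u a).coeff (n + a0 - a) =
        ∑ c ∈ range r, P.coeff c * ∑ a ∈ T, (a : K) ^ c * (u a).coeff (n + a0 - a) := by
      simp only [mul_sum]
      rw [sum_comm]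
      refine sum_congr rfl fun a _ => ?_
      rw [Polynomial.eval_eq_sum_range' hP, sum_mul]
      exact sum_congr rfl fun c _ => by ring
    rw [h4]
    refine sum_eq_zero fun c hc' => ?_
    rw [h2 c (mem_range.1 hc'), mul_zero]
  have haT : a0 ∈ T := by rw [hT, mem_filter]; exact ⟨ha0, le_rfl⟩
  have h5 := h3 (∏ a ∈ T.erase a0, (Polynomial.X - Polynomial.C (a : K))) (by
    rw [Polynomial.natDegree_prod_of_monic _ _ (fun i _ => Polynomial.monic_X_sub_C _)]
    simp only [Polynomial.natDegree_X_sub_C, sum_const, smul_eq_mul, mul_one]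
    rw [card_erase_of_mem haT]
    have : 0 < T.card := card_pos.2 ⟨a0, haT⟩
    omega)
  rw [Finset.sum_eq_single a0] at h5
  · rcases mul_eq_zero.1 h5 with h4 | h4
    · exfalso
      rw [Polynomial.eval_prod] at h4
      obtain ⟨b, hb, hb'⟩ := prod_eq_zero_iff.1 h4
      simp only [Polynomial.eval_sub, Polynomial.eval_X, Polynomial.eval_C] at hb'
      have : (a0 : K) = b := sub_eq_zero.1 hb'
      have : a0 = b := by exact_mod_cast this
      exact (mem_erase.1 hb).1 this.symm
    · rwa [show n + a0 - a0 = n by ring] at h4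
  · intro b hb hne
    rw [Polynomial.eval_prod, prod_eq_zero (mem_erase.2 ⟨hne, hb⟩) (by simp), zero_mul]
  · intro h; exact absurd haT h

end

/-- absorption of a point of multiplicity `a0` at the left ends of the rows -/
theorem Emp_absorb {ι : Type} {w : ι → ℕ} (a0 : ℕ) {S S' : Set (ℤ × ℤ)}
    (hcol : ∀ m ∈ S, 0 ≤ m.2 ∧ ∀ j : ℤ, 0 ≤ j → j ≤ m.2 → ((m.1, j) : ℤ × ℤ) ∈ S)
    (hS : ∀ m ∈ S, ∀ B : Finset ℤ, (∀ b ∈ B, b < m.1 ∧ ((b, m.2) : ℤ × ℤ) ∈ S) →
      (a0 : ℤ) - m.2 ≤ B.card → m ∈ S') (h : Emp w S') :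
    Emp (fun o : Option ι => o.elim a0 w) S := by
  classical
  obtain ⟨K, _, _, x, y, hx, hy, hf⟩ := h
  have hz : ∀ i, 1 + tv K * cst (y i) ≠ 0 := by
    intro i h
    have h1 := congrArg (fun u : LaurentSeries K => u.coeff 0) h
    simp only [HahnSeries.coeff_add, coeff_mul_cst, HahnSeries.coeff_zero] at h1
    have h2 : (tv K).coeff 0 = 0 := by simp [tv]
    rw [h2] at h1
    simp at h1
  have htv : tv K ≠ 0 := by simp [tv]
  refine ⟨LaurentSeries K, inferInstance, inferInstance,
    fun o => o.elim (tv K) (fun i => cst (x i)),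
    fun o => o.elim 1 (fun i => 1 + tv K * cst (y i)), fun o => ?_, fun o => ?_, ?_⟩
  · cases o with
    | none => exact htv
    | some i => simpa using hx i
  · cases o with
    | none => exact one_ne_zero
    | some i => exact hz i
  intro f hfS hfL
  by_contra hne
  have hpos : ∀ m ∈ f.support, 0 ≤ m.2 := fun m hm => (hcol m (hfS (mem_coe.2 hm))).1
  have hN0 : ∀ m ∈ f.support, 0 ≤ m.2 + ((0 : ℕ) : ℤ) := by
    intro m hm
    have := hpos m hm
    simpa using this
  obtain ⟨n, hn1, hn2, -⟩ := exists_lead (flt_ne_zero hN0 hne)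
  apply hn1
  apply hf
  · intro m hm
    have hm' : (flt 0 f m).coeff n ≠ 0 := by
      simpa using hm
    by_cases hneg : m.2 < 0
    · exfalso
      apply hm'
      have : flt 0 f (m.1, m.2) = 0 := flt_apply_neg 0 f m.1 m.2 hneg
      have e : m = (m.1, m.2) := rfl
      rw [e, this]; simp
    · obtain ⟨j, hj⟩ := Int.eq_ofNat_of_zero_le (not_lt.1 hneg)
      obtain ⟨a, ha⟩ : ∃ a, a = m.1 := ⟨_, rfl⟩
      have e : m = (a, (j : ℤ)) := by ext <;> simp [hj, ha]
      rw [e] at hm' ⊢
      -- the row polynomial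
      have hrow : ∀ b : ℤ, flt 0 f (b, (j : ℤ)) = tv K ^ j *
          ∑ m ∈ f.support with m.1 = b, (m.2.toNat.choose j : LaurentSeries K) * f m := by
        intro b
        rw [flt_apply]
        simp
      -- points of the row lie in `S`
      have hrowS : ∀ b : ℤ, flt 0 f (b, (j : ℤ)) ≠ 0 → ((b, (j : ℤ)) : ℤ × ℤ) ∈ S := by
        intro b hb
        rw [hrow b] at hb
        have h1 := right_ne_zero_of_mul hb
        obtain ⟨m', hm1, hm2⟩ := exists_ne_zero_of_sum_ne_zero h1
        rw [mem_filter] at hm1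
        have h2 : m'.2.toNat.choose j ≠ 0 := by
          intro h3
          rw [h3] at hm2
          simp at hm2
        have h4 : j ≤ m'.2.toNat := by
          by_contra h5
          exact h2 (Nat.choose_eq_zero_of_lt (by omega))
        have h5 := hcol m' (hfS (mem_coe.2 hm1.1))
        have h6 := h5.2 (j : ℤ) (by positivity) (by have := h5.1; omega)
        rw [hm1.2] at h6
        exact h6
      have haS := hrowS a (by intro h0; rw [h0] at hm'; simp at hm')
      -- the support of the row
      obtain ⟨R, hR⟩ : ∃ R : Finset ℤ, R = (f.support.image Prod.fst).filter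
          (fun b => flt 0 f (b, (j : ℤ)) ≠ 0) := ⟨_, rfl⟩
      have hRmem : ∀ b : ℤ, flt 0 f (b, (j : ℤ)) ≠ 0 → b ∈ R := by
        intro b hb
        rw [hR, mem_filter]
        refine ⟨?_, hb⟩
        rw [hrow b] at hb
        obtain ⟨m', hm1, -⟩ := exists_ne_zero_of_sum_ne_zero (right_ne_zero_of_mul hb)
        rw [mem_filter] at hm1
        rw [← hm1.2]
        exact mem_image_of_mem _ hm1.1
      have haR : a ∈ R := hRmem a (by intro h0; rw [h0] at hm'; simp at hm')
      refine hS (a, (j : ℤ)) haS (R.filter (fun b => b < a)) (fun b hb => ?_) ?_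
      · rw [mem_filter] at hb
        refine ⟨hb.2, hrowS b ?_⟩
        have h1 := hb.1
        rw [hR, mem_filter] at h1
        exact h1.2
      · by_contra hcon
        rw [not_le] at hcon
        apply hm'
        refine row_vanish (R := R) (u := fun b => flt 0 f (b, (j : ℤ))) (r := a0 - j)
          (fun b _ k hk => hn2 _ k hk) ?_ haR (by
            simp only at hcon
            omega)
        intro c hc
        have h1 := row_cond hpos (hfL none) (k := j) (c := c) (by
          show c + j < a0
          omega)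
        have h2 : ∑ b ∈ R, flt 0 f (b, (j : ℤ)) * ((b : LaurentSeries K) ^ c * tv K ^ b) =
            ∑ b ∈ f.support.image Prod.fst, flt 0 f (b, (j : ℤ)) *
              ((b : LaurentSeries K) ^ c * tv K ^ b) := by
          rw [hR, sum_filter]
          refine sum_congr rfl fun b _ => ?_
          split_ifs with h3
          · rfl
          · rw [not_not] at h3
            rw [h3, zero_mul]
        rw [h2]
        have h3 : ∑ b ∈ f.support.image Prod.fst, flt 0 f (b, (j : ℤ)) *
              ((b : LaurentSeries K) ^ c * tv K ^ b) = tv K ^ j *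
            ∑ m ∈ f.support, ((m.2.toNat.choose j : LaurentSeries K) * f m) *
              ((m.1 : LaurentSeries K) ^ c * tv K ^ m.1) := by
          have h4 : ∑ m ∈ f.support, ((m.2.toNat.choose j : LaurentSeries K) * f m) *
              ((m.1 : LaurentSeries K) ^ c * tv K ^ m.1) =
              ∑ b ∈ f.support.image Prod.fst, ∑ m ∈ f.support with m.1 = b,
                ((m.2.toNat.choose j : LaurentSeries K) * f m) *
                  ((m.1 : LaurentSeries K) ^ c * tv K ^ m.1) :=
            (sum_fiberwise_of_maps_to (fun m hm => mem_image_of_mem _ hm) _).symm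
          rw [h4, mul_sum]
          refine sum_congr rfl fun b _ => ?_
          rw [hrow b, mul_assoc, sum_mul]
          congr 1
          refine sum_congr rfl fun m hm => ?_
          rw [(mem_filter.1 hm).2]
        rw [h3]
        have h5 : (fun o : Option ι => o.elim (tv K) fun i => cst (x i)) none = tv K := rfl
        rw [h5] at h1
        rw [h1, mul_zero]
  · intro i
    have h1 := hfL (some i)
    exact LM_coeff (LM_flt hN0 (hz i) h1) n

end Pool.Agent.TH906.WP
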