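import Pool.Agent.TH819.NagA

set_option autoImplicit false

/-!
# Division of Laurent polynomials by `x ^ a * y ^ b - c`
-/

namespace Pool.Agent.TH906.WP

open Finset Pool.Agent.TH176.Nag Pool.Agent.TH819.NagA

section one

/-- a Laurent polynomial in one variable with many zeros vanishes -/
theorem one_varK {K : Type*} [Field K] [CharZero K] {ι : Type} [Fintype ι] (x : ι → K)
    (hx : Function.Injective x) (hx0 : ∀ i, x i ≠ 0)
    (w : ι → ℕ) (h : ℤ →₀ K) (α β : ℝ) (hs : ∀ a ∈ h.support, α ≤ (a : ℝ) ∧ (a : ℝ) ≤ β)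
    (hB : β - α < ∑ i, (w i : ℝ))
    (hz : ∀ i, ∀ c < w i, (h.sum fun a v => v * ((a : K) ^ c * x i ^ a)) = 0) : h = 0 := by
  classical
  by_contra hne
  have hsn : h.support.Nonempty := Finsupp.support_nonempty_iff.2 hne
  set a0 := h.support.min' hsn with ha0
  have ha0m : a0 ∈ h.support := Finset.min'_mem _ _
  have hle : ∀ a ∈ h.support, a0 ≤ a := fun a ha => Finset.min'_le _ _ ha
  -- all polynomial weights
  have hP : ∀ i, ∀ P : Polynomial K, P.natDegree < w i →
      (h.sum fun a v => v * (P.eval (a : K) * x i ^ a)) = 0 := by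
    intro i P hP
    have h1 : (h.sum fun a v => v * (P.eval (a : K) * x i ^ a)) =
        ∑ c ∈ range (P.natDegree + 1), P.coeff c * (h.sum fun a v => v * ((a : K) ^ c * x i ^ a)) := by
      unfold Finsupp.sum
      simp_rw [Finset.mul_sum]
      rw [Finset.sum_comm]
      refine Finset.sum_congr rfl fun a _ => ?_
      rw [Polynomial.eval_eq_sum_range, Finset.sum_mul, Finset.mul_sum]
      refine Finset.sum_congr rfl fun c _ => ?_
      ring
    rw [h1]
    refine Finset.sum_eq_zero fun c hc => ?_
    rw [hz i c (by have := Finset.mem_range.1 hc; omega), mul_zero]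
  -- the polynomial
  set p : Polynomial K := ∑ a ∈ h.support, Polynomial.monomial (a - a0).toNat (h a) with hp
  have hcoeff : ∀ a ∈ h.support, p.coeff (a - a0).toNat = h a := by
    intro a ha
    rw [hp, Polynomial.finsetSum_coeff, Finset.sum_eq_single a]
    · simp
    · intro b hb hba
      rw [Polynomial.coeff_monomial, if_neg]
      intro h2
      apply hba
      have := hle a ha
      have := hle b hb
      omega
    · intro h2
      exact absurd ha h2
  have hp0 : p ≠ 0 := by
    intro h2
    have h3 := hcoeff a0 ha0m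
    rw [h2, Polynomial.coeff_zero] at h3
    exact (Finsupp.mem_support_iff.1 ha0m) h3.symm
  have hdeg : (p.natDegree : ℝ) ≤ β - α := by
    have h1 : ∀ n ∈ p.support, (n : ℝ) ≤ β - α := by
      intro n hn
      rw [Polynomial.mem_support_iff, hp, Polynomial.finsetSum_coeff] at hn
      obtain ⟨a, ha, h2⟩ := Finset.exists_ne_zero_of_sum_ne_zero hn
      rw [Polynomial.coeff_monomial] at h2
      have h3 : (a - a0).toNat = n := by
        by_contra h4
        rw [if_neg h4] at h2
        exact h2 rfl
      have h4 := hle a ha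
      have h5 : (n : ℝ) = (a : ℝ) - a0 := by
        rw [← h3]
        have : (((a - a0).toNat : ℤ)) = a - a0 := Int.toNat_of_nonneg (by omega)
        have h6 : ((((a - a0).toNat : ℤ)) : ℝ) = ((a - a0 : ℤ) : ℝ) := by rw [this]
        push_cast at h6
        exact_mod_cast h6
      rw [h5]
      have h6 := (hs a ha).2
      have h7 := (hs a0 ha0m).1
      linarith
    exact h1 _ (Polynomial.natDegree_mem_support_of_nonzero hp0)
  -- multiplicities
  have hroot : ∀ i, ∀ c < w i, ((Polynomial.derivative^[c]) p).eval (x i) = 0 := by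
    intro i c hc
    have hdp : ((descPochhammer K c).comp (Polynomial.X - Polynomial.C (a0 : K))).natDegree < w i := by
      refine lt_of_le_of_lt (Polynomial.natDegree_comp_le) ?_
      rw [descPochhammer_natDegree, Polynomial.natDegree_X_sub_C, mul_one]
      exact hc
    have h1 := hP i _ hdp
    have h2 : ((Polynomial.derivative^[c]) p).eval (x i) =
        (x i ^ (a0 + c))⁻¹ * (h.sum fun a v => v *
          (((descPochhammer K c).comp (Polynomial.X - Polynomial.C (a0 : K))).eval (a : K) *
            x i ^ a)) := by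
      rw [hp, Polynomial.iterate_derivative_sum, Polynomial.eval_finsetSum, Finsupp.sum,
        Finset.mul_sum]
      refine Finset.sum_congr rfl fun a ha => ?_
      have h3 := hle a ha
      rw [← Polynomial.C_mul_X_pow_eq_monomial, Polynomial.iterate_derivative_C_mul,
        Polynomial.iterate_derivative_X_pow_eq_natCast_mul, Polynomial.eval_mul,
        Polynomial.eval_mul, Polynomial.eval_C, Polynomial.eval_pow, Polynomial.eval_X,
        Polynomial.eval_natCast, Polynomial.eval_comp, Polynomial.eval_sub, Polynomial.eval_X,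
        Polynomial.eval_C]
      have h4 : ((a : K) - (a0 : K)) = (((a - a0).toNat : ℕ) : K) := by
        have : (((a - a0).toNat : ℤ)) = a - a0 := Int.toNat_of_nonneg (by omega)
        have h6 : ((((a - a0).toNat : ℤ)) : K) = ((a - a0 : ℤ) : K) := by rw [this]
        push_cast at h6
        exact_mod_cast h6.symm
      rw [h4, descPochhammer_eval_eq_descFactorial]
      rcases lt_or_ge (a - a0).toNat c with h5 | h5
      · rw [Nat.descFactorial_of_lt h5]
        simp
      · have h6 : x i ^ ((a - a0).toNat - c) = (x i ^ (a0 + c))⁻¹ * x i ^ a := by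
          rw [← zpow_neg, ← zpow_add₀ (hx0 i), ← zpow_natCast]
          congr 1
          omega
        rw [h6]
        ring
    rw [h2, h1, mul_zero]
  have hdvd : ∀ i, (Polynomial.X - Polynomial.C (x i)) ^ w i ∣ p := by
    intro i
    rw [← Polynomial.le_rootMultiplicity_iff hp0]
    rcases Nat.eq_zero_or_pos (w i) with h0 | h0
    · omega
    · have h1 : w i - 1 < p.rootMultiplicity (x i) := by
        rw [Polynomial.lt_rootMultiplicity_iff_isRoot_iterate_derivative hp0]
        intro m hm
        exact hroot i m (by omega)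
      omega
  have hprod : (∏ i, (Polynomial.X - Polynomial.C (x i)) ^ w i) ∣ p := by
    apply Finset.prod_dvd_of_coprime
    · intro i _ j _ hij
      exact (Polynomial.pairwise_coprime_X_sub_C hx hij).pow
    · intro i _
      exact hdvd i
  have h1 := Polynomial.natDegree_le_of_dvd hprod hp0
  rw [Polynomial.natDegree_prod_of_monic _ _ (fun i _ => (Polynomial.monic_X_sub_C _).pow _)] at h1
  simp_rw [Polynomial.natDegree_pow, Polynomial.natDegree_X_sub_C, mul_one] at h1
  have h2 : ((∑ i, w i : ℕ) : ℝ) ≤ p.natDegree := by exact_mod_cast h1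
  push_cast at h2
  linarith

end one

section div

variable {K : Type*} [Field K]

/-- the constant coordinate on the lines of direction `(a, b)` -/
def kap (a b : ℤ) (m : ℤ × ℤ) : ℤ := a * m.2 - b * m.1

/-- the coordinate along the lines of direction `(a, b)`, `p a + q b = 1` -/
def tt (p q : ℤ) (m : ℤ × ℤ) : ℤ := p * m.1 + q * m.2

/-- multiplication by `x ^ a y ^ b - c` -/
noncomputable def mulB (a b : ℤ) (c : K) : ((ℤ × ℤ) →₀ K) →ₗ[K] ((ℤ × ℤ) →₀ K) :=
  Finsupp.lmapDomain K K (fun m : ℤ × ℤ => m + (a, b)) - c • LinearMap.id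

theorem mulB_single (a b : ℤ) (c : K) (m : ℤ × ℤ) (r : K) :
    mulB a b c (Finsupp.single m r) = Finsupp.single (m + (a, b)) r - Finsupp.single m (c * r) := by
  unfold mulB
  simp

theorem mulB_apply (a b : ℤ) (c : K) (g : (ℤ × ℤ) →₀ K) (m : ℤ × ℤ) :
    mulB a b c g m = g (m - (a, b)) - c * g m := by
  unfold mulB
  have h : (Finsupp.lmapDomain K K (fun m : ℤ × ℤ => m + (a, b)) g) m = g (m - (a, b)) := by
    rw [Finsupp.lmapDomain_apply]
    have h1 : Function.Injective (fun m : ℤ × ℤ => m + (a, b)) := fun x y h => by simpa using h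
    have h2 := Finsupp.mapDomain_apply h1 g (m - (a, b))
    simp only [sub_add_cancel] at h2
    exact h2
  rw [LinearMap.sub_apply, Finsupp.sub_apply, h, LinearMap.smul_apply, LinearMap.id_apply,
    Finsupp.smul_apply, smul_eq_mul]

/-- monomials are congruent to those on a section of the lines -/
theorem single_mem (a b p q : ℤ) (hpq : p * a + q * b = 1) {c : K} (hc : c ≠ 0) (m : ℤ × ℤ) :
    Finsupp.single m (1 : K) - Finsupp.single (-q * kap a b m, p * kap a b m) (c ^ tt p q m) ∈
      LinearMap.range (mulB a b c) := by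
  -- `m = kap m * (-q, p) + tt m * (a, b)`
  have hm : ∀ t k : ℤ, Finsupp.single ((-q * k + t * a, p * k + t * b) : ℤ × ℤ) (1 : K) -
      Finsupp.single (-q * k, p * k) (c ^ t) ∈ LinearMap.range (mulB a b c) := by
    intro t k
    have hstep : ∀ t : ℤ, Finsupp.single ((-q * k + (t + 1) * a, p * k + (t + 1) * b) : ℤ × ℤ) (1 : K) -
        c • Finsupp.single ((-q * k + t * a, p * k + t * b) : ℤ × ℤ) (1 : K) ∈
        LinearMap.range (mulB a b c) := by
      intro t
      refine ⟨Finsupp.single ((-q * k + t * a, p * k + t * b) : ℤ × ℤ) (1 : K), ?_⟩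
      rw [mulB_single]
      congr 1
      · congr 1
        ext <;> simp <;> ring
      · simp
    induction t using Int.induction_on with
    | zero => simp
    | succ t ih =>
      have h1 := Submodule.add_mem _ (hstep t) (Submodule.smul_mem _ c ih)
      have e : Finsupp.single ((-q * k + ((t : ℤ) + 1) * a, p * k + ((t : ℤ) + 1) * b) : ℤ × ℤ) (1 : K) -
          Finsupp.single (-q * k, p * k) (c ^ ((t : ℤ) + 1)) =
          (Finsupp.single ((-q * k + ((t : ℤ) + 1) * a, p * k + ((t : ℤ) + 1) * b) : ℤ × ℤ) (1 : K) -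
        c • Finsupp.single ((-q * k + t * a, p * k + t * b) : ℤ × ℤ) (1 : K)) +
        c • (Finsupp.single ((-q * k + t * a, p * k + t * b) : ℤ × ℤ) (1 : K) -
      Finsupp.single (-q * k, p * k) (c ^ (t : ℤ))) := by
        rw [smul_sub, Finsupp.smul_single' c, zpow_add_one₀ hc, mul_comm (c ^ (t : ℤ)) c,
          Finsupp.smul_single' c (-q * k, p * k)]
        abel
      rw [e]
      exact h1
    | pred t ih =>
      have h0 := hstep (-(t : ℤ) - 1)
      rw [sub_add_cancel] at h0
      have h1 := Submodule.smul_mem _ c⁻¹ (Submodule.sub_mem _ ih h0)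
      have e : Finsupp.single ((-q * k + (-(t : ℤ) - 1) * a, p * k + (-(t : ℤ) - 1) * b) : ℤ × ℤ) (1 : K) -
          Finsupp.single (-q * k, p * k) (c ^ (-(t : ℤ) - 1)) =
          c⁻¹ • ((Finsupp.single ((-q * k + -(t : ℤ) * a, p * k + -(t : ℤ) * b) : ℤ × ℤ) (1 : K) -
      Finsupp.single (-q * k, p * k) (c ^ (-(t : ℤ)))) -
          (Finsupp.single ((-q * k + -(t : ℤ) * a, p * k + -(t : ℤ) * b) : ℤ × ℤ) (1 : K) -
        c • Finsupp.single ((-q * k + (-(t : ℤ) - 1) * a, p * k + (-(t : ℤ) - 1) * b) : ℤ × ℤ) (1 : K))) := by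
        rw [sub_sub_sub_cancel_left, smul_sub, smul_smul, inv_mul_cancel₀ hc, one_smul,
          Finsupp.smul_single' c⁻¹, zpow_sub_one₀ hc, mul_comm (c ^ (-(t : ℤ))) c⁻¹]
      rw [e]
      exact h1
  have h := hm (tt p q m) (kap a b m)
  have e1 : ((-q * kap a b m + tt p q m * a, p * kap a b m + tt p q m * b) : ℤ × ℤ) = m := by
    unfold kap tt
    ext
    · simp only
      linear_combination m.1 * hpq
    · simp only
      linear_combination m.2 * hpq
  rwa [e1] at h

/-- divisibility from the vanishing of the restriction -/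
theorem exists_div (a b p q : ℤ) (hpq : p * a + q * b = 1) {c : K} (hc : c ≠ 0)
    (f : (ℤ × ℤ) →₀ K)
    (h0 : (f.sum fun m r => Finsupp.single (kap a b m) (r * c ^ tt p q m) : ℤ →₀ K) = 0) :
    ∃ g, mulB a b c g = f := by
  have h1 : (f.sum fun m r => Finsupp.single ((-q * kap a b m, p * kap a b m) : ℤ × ℤ)
      (r * c ^ tt p q m) : (ℤ × ℤ) →₀ K) = 0 := by
    have h2 := congrArg (Finsupp.mapDomain (fun k : ℤ => ((-q * k, p * k) : ℤ × ℤ))) h0
    rw [Finsupp.mapDomain_zero, Finsupp.sum, Finsupp.mapDomain_finsetSum] at h2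
    simp_rw [Finsupp.mapDomain_single] at h2
    exact h2
  have h3 : f = f.sum fun m r => r • (Finsupp.single m (1 : K) -
      Finsupp.single (-q * kap a b m, p * kap a b m) (c ^ tt p q m)) := by
    have h4 : (f.sum fun m r => r • (Finsupp.single m (1 : K) -
      Finsupp.single (-q * kap a b m, p * kap a b m) (c ^ tt p q m))) =
      (f.sum fun m r => Finsupp.single m r) - (f.sum fun m r =>
        Finsupp.single ((-q * kap a b m, p * kap a b m) : ℤ × ℤ) (r * c ^ tt p q m)) := by
      unfold Finsupp.sum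
      rw [← Finset.sum_sub_distrib]
      refine Finset.sum_congr rfl fun m _ => ?_
      simp only []
      rw [smul_sub, Finsupp.smul_single', Finsupp.smul_single', mul_one]
    rw [h4, h1, sub_zero, Finsupp.sum_single]
  have h5 : f ∈ LinearMap.range (mulB a b c) := by
    rw [h3]
    exact Submodule.sum_mem _ fun m _ => Submodule.smul_mem _ _ (single_mem a b p q hpq hc m)
  exact h5

/-- the exponents of the quotient lie between exponents of the product -/
theorem div_supp {a b : ℤ} (hv : (a, b) ≠ ((0, 0) : ℤ × ℤ)) {c : K} (hc : c ≠ 0)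
    {g : (ℤ × ℤ) →₀ K} {m : ℤ × ℤ} (hm : m ∈ g.support) :
    (∃ i : ℕ, m + ((i : ℤ) + 1) • (a, b) ∈ (mulB a b c g).support) ∧
      ∃ j : ℕ, m - (j : ℤ) • (a, b) ∈ (mulB a b c g).support := by
  classical
  have hinj : ∀ i j : ℤ, m + i • ((a, b) : ℤ × ℤ) = m + j • (a, b) → i = j := by
    intro i j h
    by_contra hne
    have h1 : i • ((a, b) : ℤ × ℤ) = j • (a, b) := by simpa using h
    simp only [Prod.smul_mk, smul_eq_mul, Prod.mk.injEq] at h1
    apply hv
    have ha : (i - j) * a = 0 := by linear_combination h1.1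
    have hb : (i - j) * b = 0 := by linear_combination h1.2
    have hij : i - j ≠ 0 := sub_ne_zero.2 hne
    ext
    · exact (mul_eq_zero.1 ha).resolve_left hij
    · exact (mul_eq_zero.1 hb).resolve_left hij
  -- the set of indices
  let T : Set ℕ := {i | m + (i : ℤ) • ((a, b) : ℤ × ℤ) ∈ g.support}
  have hT : T.Finite := by
    refine Set.Finite.of_injOn (f := fun i : ℕ => m + (i : ℤ) • ((a, b) : ℤ × ℤ))
      (t := (↑g.support : Set (ℤ × ℤ))) (fun i hi => hi) ?_ g.support.finite_toSet
    intro i _ j _ h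
    exact_mod_cast hinj _ _ h
  let T' : Set ℕ := {i | m - (i : ℤ) • ((a, b) : ℤ × ℤ) ∈ g.support}
  have hT' : T'.Finite := by
    refine Set.Finite.of_injOn (f := fun i : ℕ => m - (i : ℤ) • ((a, b) : ℤ × ℤ))
      (t := (↑g.support : Set (ℤ × ℤ))) (fun i hi => hi) ?_ g.support.finite_toSet
    intro i _ j _ h
    have h1 : m + (-(i : ℤ)) • ((a, b) : ℤ × ℤ) = m + (-(j : ℤ)) • (a, b) := by
      simpa [sub_eq_add_neg] using h
    have h2 := hinj _ _ h1
    omega
  have h0 : (0 : ℕ) ∈ T := by
    show m + ((0 : ℕ) : ℤ) • ((a, b) : ℤ × ℤ) ∈ g.support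
    rw [Nat.cast_zero, zero_smul, add_zero]
    exact hm
  have h0' : (0 : ℕ) ∈ T' := by
    show m - ((0 : ℕ) : ℤ) • ((a, b) : ℤ × ℤ) ∈ g.support
    rw [Nat.cast_zero, zero_smul, sub_zero]
    exact hm
  constructor
  · obtain ⟨i, hi⟩ := Set.Finite.exists_maximal hT ⟨0, h0⟩
    refine ⟨i, ?_⟩
    rw [Finsupp.mem_support_iff, mulB_apply]
    have e : m + ((i : ℤ) + 1) • ((a, b) : ℤ × ℤ) - (a, b) = m + (i : ℤ) • (a, b) := by
      rw [add_smul, one_smul]; abel
    have h1 : g (m + ((i : ℤ) + 1) • ((a, b) : ℤ × ℤ)) = 0 := by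
      by_contra h2
      have h3 : i + 1 ∈ T := by
        show m + ((i + 1 : ℕ) : ℤ) • ((a, b) : ℤ × ℤ) ∈ g.support
        rw [Finsupp.mem_support_iff]
        push_cast
        exact h2
      have h4 := hi.2 h3 (Nat.le_succ i)
      omega
    rw [e, h1, mul_zero, sub_zero]
    exact Finsupp.mem_support_iff.1 hi.1
  · obtain ⟨j, hj⟩ := Set.Finite.exists_maximal hT' ⟨0, h0'⟩
    refine ⟨j, ?_⟩
    rw [Finsupp.mem_support_iff, mulB_apply]
    have h1 : g (m - (j : ℤ) • ((a, b) : ℤ × ℤ) - (a, b)) = 0 := by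
      by_contra h2
      have h3 : j + 1 ∈ T' := by
        show m - ((j + 1 : ℕ) : ℤ) • ((a, b) : ℤ × ℤ) ∈ g.support
        rw [Finsupp.mem_support_iff]
        push_cast
        rw [add_smul, one_smul, ← sub_sub]
        exact h2
      have h4 := hj.2 h3 (Nat.le_succ j)
      omega
    rw [h1, zero_sub, neg_ne_zero]
    exact mul_ne_zero hc (Finsupp.mem_support_iff.1 hj.1)

/-- the pairing with a product -/
theorem pr_mulB (a b : ℤ) (c : K) (g : (ℤ × ℤ) →₀ K) {x y : K} (hx : x ≠ 0) (hy : y ≠ 0)
    (P : K × K → K) : pr (mulB a b c g) x y P =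
      pr g x y (fun u => (x ^ a * y ^ b) * P (u.1 + a, u.2 + b) - c * P u) := by
  classical
  induction g using Finsupp.induction_linear with
  | zero => rw [map_zero, pr_zero_left, pr_zero_left]
  | add g g' h h' => rw [map_add, pr_add_left, pr_add_left, h, h']
  | single m r =>
    rw [mulB_single, sub_eq_add_neg, ← Finsupp.single_neg, pr_add_left, pr_single, pr_single,
      pr_single]
    simp only [Prod.fst_add, Prod.snd_add]
    rw [zpow_add₀ hx, zpow_add₀ hy]
    push_cast
    ring

/-- change of coordinates in `PF` -/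
theorem PF_le_of_desc' {a b p q : ℤ} (hpq : p * a + q * b = 1) {w : ℕ}
    {V : Submodule K (K × K → K)}
    (hV : ∀ i j : ℕ, i + j < w → (fun u : K × K => ((a : K) * u.2 - b * u.1) ^ i *
      ∏ s ∈ range j, ((p : K) * u.1 + q * u.2 - (s : K))) ∈ V) : PF K w ≤ V := by
  have hpq' : (p : K) * a + q * b = 1 := by
    have h := congrArg (Int.cast : ℤ → K) hpq
    push_cast at h
    exact h
  let L : (K × K → K) →ₗ[K] (K × K → K) :=
    { toFun := fun P u => P ((a : K) * u.2 - b * u.1, (p : K) * u.1 + q * u.2)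
      map_add' := fun _ _ => rfl
      map_smul' := fun _ _ => rfl }
  have h1 : PF K w ≤ V.comap L := by
    apply PF_le_of_desc
    intro i j hij
    exact hV i j hij
  intro Q hQ
  -- `Q = L Q'`
  have h2 := PF_comp_aff hQ 0 (-(q : K)) a 0 p b
  have h3 := h1 h2
  have h4 : L (fun u : K × K => Q (0 + -(q : K) * u.1 + a * u.2, 0 + p * u.1 + b * u.2)) = Q := by
    funext u
    show Q _ = Q u
    congr 1
    ext
    · simp only
      linear_combination u.1 * hpq'
    · simp only
      linear_combination u.2 * hpq'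
  have h5 : L (fun u : K × K => Q (0 + -(q : K) * u.1 + a * u.2, 0 + p * u.1 + b * u.2)) ∈ V := h3
  rwa [h4] at h5

theorem PF_lin {a b : K} {i w : ℕ} (h : i < w) :
    (fun u : K × K => (a * u.2 - b * u.1) ^ i) ∈ PF K w := by
  have h1 := PF_comp_aff (mem_PF_mono (K := K) (a := i) (b := 0) (w := w) (by omega)) 0 (-b) a 0 0 1
  have e : (fun u : K × K => (a * u.2 - b * u.1) ^ i) = fun u : K × K =>
      (fun u : K × K => u.1 ^ i * u.2 ^ 0) (0 + -b * u.1 + a * u.2, 0 + 0 * u.1 + 1 * u.2) := by
    funext u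
    simp only [pow_zero, mul_one]
    congr 1
    ring
  rw [e]
  exact h1

theorem PF_desc' {a b p q : K} {i j w : ℕ} (h : i + j < w) :
    (fun u : K × K => (a * u.2 - b * u.1) ^ i * ∏ s ∈ range j, (p * u.1 + q * u.2 - (s : K))) ∈
      PF K w := by
  have h1 := PF_comp_aff (PF_desc (K := K) (a := i) (b := j) (w := w) h) 0 (-b) a 0 p q
  have e : (fun u : K × K => (a * u.2 - b * u.1) ^ i *
      ∏ s ∈ range j, (p * u.1 + q * u.2 - (s : K))) = fun u : K × K =>
      (fun u : K × K => u.1 ^ i * ∏ t ∈ range j, (u.2 - (t : K)))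
        (0 + -b * u.1 + a * u.2, 0 + p * u.1 + q * u.2) := by
    funext u
    simp only
    congr 1
    · congr 1
      ring
    · refine Finset.prod_congr rfl fun s _ => ?_
      ring
  rw [e]
  exact h1

theorem desc_shift (t : K) (j : ℕ) :
    ∏ s ∈ range (j + 1), (t + 1 - (s : K)) =
      (∏ s ∈ range (j + 1), (t - (s : K))) + ((j : K) + 1) * ∏ s ∈ range j, (t - (s : K)) := by
  rw [Finset.prod_range_succ', Finset.prod_range_succ]
  have e : ∀ s : ℕ, t + 1 - ((s + 1 : ℕ) : K) = t - (s : K) := by intro s; push_cast; ring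
  simp_rw [e]
  push_cast
  ring

/-- the quotient at the points of the curve -/
theorem LM_div_on [CharZero K] {a b p q : ℤ} (hpq : p * a + q * b = 1) {c : K} (hc : c ≠ 0)
    {g : (ℤ × ℤ) →₀ K} {x y : K} (hx : x ≠ 0) (hy : y ≠ 0) (hon : x ^ a * y ^ b = c) {w : ℕ}
    (h : LM (mulB a b c g) x y w) : LM g x y (w - 1) := by
  have hpq' : (p : K) * a + q * b = 1 := by
    have h := congrArg (Int.cast : ℤ → K) hpq
    push_cast at h
    exact h
  have h1 : PF K (w - 1) ≤ LinearMap.ker (prL g x y) := by
    apply PF_le_of_desc' hpq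
    intro i j hij
    have hj : ((j : K) + 1) ≠ 0 := by exact_mod_cast Nat.succ_ne_zero j
    have h2 := h _ (PF_desc' (a := (a : K)) (b := b) (p := p) (q := q) (i := i) (j := j + 1)
      (w := w) (by omega))
    rw [pr_mulB a b c g hx hy, hon] at h2
    have e : (fun u : K × K => c * ((fun u : K × K => ((a : K) * u.2 - b * u.1) ^ i *
        ∏ s ∈ range (j + 1), ((p : K) * u.1 + q * u.2 - (s : K))) (u.1 + a, u.2 + b)) -
        c * (fun u : K × K => ((a : K) * u.2 - b * u.1) ^ i *
        ∏ s ∈ range (j + 1), ((p : K) * u.1 + q * u.2 - (s : K))) u) =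
        (c * ((j : K) + 1)) • (fun u : K × K => ((a : K) * u.2 - b * u.1) ^ i *
          ∏ s ∈ range j, ((p : K) * u.1 + q * u.2 - (s : K))) := by
      funext u
      simp only [Pi.smul_apply, smul_eq_mul]
      have e1 : (a : K) * (u.2 + b) - b * (u.1 + a) = (a : K) * u.2 - b * u.1 := by ring
      have e2 : ∀ s : ℕ, (p : K) * (u.1 + a) + q * (u.2 + b) - (s : K) =
          ((p : K) * u.1 + q * u.2) + 1 - (s : K) := by
        intro s; linear_combination hpq'
      simp_rw [e2]
      rw [e1, desc_shift]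
      ring
    rw [e, pr_smul_right] at h2
    exact (mul_eq_zero.1 h2).resolve_left (mul_ne_zero hc hj)
  intro P hP
  exact h1 hP

/-- the quotient at the points outside of the curve -/
theorem LM_div_off {a b p q : ℤ} (hpq : p * a + q * b = 1) {c : K}
    {g : (ℤ × ℤ) →₀ K} {x y : K} (hx : x ≠ 0) (hy : y ≠ 0) (hoff : x ^ a * y ^ b ≠ c) {w : ℕ}
    (h : LM (mulB a b c g) x y w) : LM g x y w := by
  have hpq' : (p : K) * a + q * b = 1 := by
    have h := congrArg (Int.cast : ℤ → K) hpq
    push_cast at h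
    exact h
  have h1 : PF K w ≤ LinearMap.ker (prL g x y) := by
    apply PF_le_of_desc' hpq
    intro i j
    induction j with
    | zero =>
      intro hij
      have h2 := h _ (PF_desc' (a := (a : K)) (b := b) (p := p) (q := q) (i := i) (j := 0)
        (w := w) hij)
      rw [pr_mulB a b c g hx hy] at h2
      have e : (fun u : K × K => (x ^ a * y ^ b) * ((fun u : K × K => ((a : K) * u.2 - b * u.1) ^ i *
          ∏ s ∈ range 0, ((p : K) * u.1 + q * u.2 - (s : K))) (u.1 + a, u.2 + b)) -
          c * (fun u : K × K => ((a : K) * u.2 - b * u.1) ^ i *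
          ∏ s ∈ range 0, ((p : K) * u.1 + q * u.2 - (s : K))) u) =
          (x ^ a * y ^ b - c) • (fun u : K × K => ((a : K) * u.2 - b * u.1) ^ i *
            ∏ s ∈ range 0, ((p : K) * u.1 + q * u.2 - (s : K))) := by
        funext u
        simp only [Pi.smul_apply, smul_eq_mul]
        have e1 : (a : K) * (u.2 + b) - b * (u.1 + a) = (a : K) * u.2 - b * u.1 := by ring
        rw [e1]
        simp only [Finset.range_zero, Finset.prod_empty]
        ring
      rw [e, pr_smul_right] at h2
      exact (mul_eq_zero.1 h2).resolve_left (sub_ne_zero.2 hoff)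
    | succ j ih =>
      intro hij
      have h3 := ih (by omega)
      have h2 := h _ (PF_desc' (a := (a : K)) (b := b) (p := p) (q := q) (i := i) (j := j + 1)
        (w := w) hij)
      rw [pr_mulB a b c g hx hy] at h2
      have e : (fun u : K × K => (x ^ a * y ^ b) * ((fun u : K × K => ((a : K) * u.2 - b * u.1) ^ i *
          ∏ s ∈ range (j + 1), ((p : K) * u.1 + q * u.2 - (s : K))) (u.1 + a, u.2 + b)) -
          c * (fun u : K × K => ((a : K) * u.2 - b * u.1) ^ i *
          ∏ s ∈ range (j + 1), ((p : K) * u.1 + q * u.2 - (s : K))) u) =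
          (x ^ a * y ^ b - c) • (fun u : K × K => ((a : K) * u.2 - b * u.1) ^ i *
            ∏ s ∈ range (j + 1), ((p : K) * u.1 + q * u.2 - (s : K))) +
          (x ^ a * y ^ b * ((j : K) + 1)) • (fun u : K × K => ((a : K) * u.2 - b * u.1) ^ i *
            ∏ s ∈ range j, ((p : K) * u.1 + q * u.2 - (s : K))) := by
        funext u
        simp only [Pi.smul_apply, smul_eq_mul, Pi.add_apply]
        have e1 : (a : K) * (u.2 + b) - b * (u.1 + a) = (a : K) * u.2 - b * u.1 := by ring
        have e2 : ∀ s : ℕ, (p : K) * (u.1 + a) + q * (u.2 + b) - (s : K) =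
            ((p : K) * u.1 + q * u.2) + 1 - (s : K) := by
          intro s; linear_combination hpq'
        simp_rw [e2]
        rw [e1, desc_shift]
        ring
      have h3' : pr g x y (fun u : K × K => ((a : K) * u.2 - b * u.1) ^ i *
            ∏ s ∈ range j, ((p : K) * u.1 + q * u.2 - (s : K))) = 0 := h3
      rw [e, pr_add_right, pr_smul_right, pr_smul_right, h3', mul_zero, add_zero] at h2
      exact (mul_eq_zero.1 h2).resolve_left (sub_ne_zero.2 hoff)
  intro P hP
  exact h1 hP

end div

end Pool.Agent.TH906.WP
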