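import Pool.Agent.TH906.WP.Reach
import Pool.Agent.TH698.NagT3

set_option autoImplicit false

/-!
# Joining two triangles

`exists_int_sep` is due to helper366 (`TH366/RC/Cut.lean`).
-/

namespace Pool.Agent.TH906.WP

open Finset Pool.Agent.TH176.Nag

/-- a real functional separating two finite sets of lattice points may be replaced by an integral
one -/
theorem exists_int_sep {S U : Set (ℤ × ℤ)} (hS : S.Finite) (hU : U.Finite) (p q : ℝ)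
    (hcut : ∀ m ∈ S, ∀ m' ∈ U, p * m.1 + q * m.2 < p * m'.1 + q * m'.2) :
    ∃ a b : ℤ, ∀ m ∈ S, ∀ m' ∈ U, a * m.1 + b * m.2 < a * m'.1 + b * m'.2 := by
  let g : (ℤ × ℤ) × (ℤ × ℤ) → ℝ := fun z =>
    (|(z.2.1 : ℝ) - z.1.1| + |(z.2.2 : ℝ) - z.1.2|) /
      (p * z.2.1 + q * z.2.2 - (p * z.1.1 + q * z.1.2))
  obtain ⟨M, hM⟩ := ((hS.prod hU).image g).bddAbove
  obtain ⟨N, hN⟩ := exists_nat_gt (max M 0)
  have hN0 : (0 : ℝ) < N := lt_of_le_of_lt (le_max_right _ _) hN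
  have hNM : M < N := lt_of_le_of_lt (le_max_left _ _) hN
  refine ⟨⌊N * p⌋, ⌊N * q⌋, ?_⟩
  rintro ⟨x, y⟩ hm ⟨x', y'⟩ hm'
  have h1 := hcut _ hm _ hm'
  simp only at h1
  have h2 : g ((x, y), (x', y')) ≤ M := hM ⟨_, Set.mk_mem_prod hm hm', rfl⟩
  simp only [g] at h2
  have hD : 0 < p * x' + q * y' - (p * x + q * y) := by linarith
  rw [div_le_iff₀ hD] at h2
  have h3 : M * (p * x' + q * y' - (p * x + q * y)) < N * (p * x' + q * y' - (p * x + q * y)) :=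
    mul_lt_mul_of_pos_right hNM hD
  have a1 := Int.floor_le (N * p)
  have a2 := Int.lt_floor_add_one (N * p)
  have b1 := Int.floor_le (N * q)
  have b2 := Int.lt_floor_add_one (N * q)
  have c1 : (N * p - ⌊N * p⌋) * ((x' : ℝ) - x) ≤ |(x' : ℝ) - x| := by
    have h5 : |(N * p - ⌊N * p⌋ : ℝ)| ≤ 1 := by
      rw [abs_le]; constructor <;> linarith
    calc (N * p - ⌊N * p⌋) * ((x' : ℝ) - x) ≤ |(N * p - ⌊N * p⌋) * ((x' : ℝ) - x)| := le_abs_self _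
      _ = |(N * p - ⌊N * p⌋ : ℝ)| * |(x' : ℝ) - x| := abs_mul _ _
      _ ≤ 1 * |(x' : ℝ) - x| := mul_le_mul_of_nonneg_right h5 (abs_nonneg _)
      _ = |(x' : ℝ) - x| := one_mul _
  have c2 : (N * q - ⌊N * q⌋) * ((y' : ℝ) - y) ≤ |(y' : ℝ) - y| := by
    have h5 : |(N * q - ⌊N * q⌋ : ℝ)| ≤ 1 := by
      rw [abs_le]; constructor <;> linarith
    calc (N * q - ⌊N * q⌋) * ((y' : ℝ) - y) ≤ |(N * q - ⌊N * q⌋) * ((y' : ℝ) - y)| := le_abs_self _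
      _ = |(N * q - ⌊N * q⌋ : ℝ)| * |(y' : ℝ) - y| := abs_mul _ _
      _ ≤ 1 * |(y' : ℝ) - y| := mul_le_mul_of_nonneg_right h5 (abs_nonneg _)
      _ = |(y' : ℝ) - y| := one_mul _
  have h6 : ((⌊N * p⌋ * x + ⌊N * q⌋ * y : ℤ) : ℝ) < ((⌊N * p⌋ * x' + ⌊N * q⌋ * y' : ℤ) : ℝ) := by
    push_cast
    linarith
  simp only
  exact_mod_cast h6

/-- bounded triangles are finite -/
theorem Reg_finite {A B μ ν : ℝ} (h : 0 < μ + ν) : (Reg A B μ ν).Finite := by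
  obtain ⟨Y, hY⟩ : ∃ Y : ℝ, Y = (B - A) / (μ + ν) := ⟨_, rfl⟩
  refine ((Set.finite_Icc ⌈A - |μ| * Y⌉ ⌊B + |ν| * Y⌋).prod (Set.finite_Icc (0 : ℤ) ⌊Y⌋)).subset ?_
  rintro ⟨x, y⟩ ⟨hy, hl, hr⟩
  simp only at hy hl hr
  have hy0 : (0 : ℝ) ≤ y := by exact_mod_cast hy
  have hyY : (y : ℝ) ≤ Y := by
    rw [hY, le_div_iff₀ h]
    linarith
  have h1 : |μ| * y ≤ |μ| * Y := mul_le_mul_of_nonneg_left hyY (abs_nonneg _)
  have h2 : |ν| * y ≤ |ν| * Y := mul_le_mul_of_nonneg_left hyY (abs_nonneg _)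
  have h3 : -(|μ| * y) ≤ μ * y := by
    have := mul_le_mul_of_nonneg_right (neg_abs_le μ) hy0
    linarith
  have h4 : -(|ν| * y) ≤ ν * y := by
    have := mul_le_mul_of_nonneg_right (neg_abs_le ν) hy0
    linarith
  refine ⟨⟨Int.ceil_le.2 ?_, Int.le_floor.2 ?_⟩, ⟨hy, Int.le_floor.2 hyY⟩⟩
  · linarith
  · linarith

/-- **Joining two triangles** along a side of any real slope. -/
theorem Emp_join {ι κ : Type} [Finite ι] [Finite κ] {w : ι → ℕ} {v : κ → ℕ}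
    {A s s1 μ ν k : ℝ} (hN : 0 < μ + ν) (hw : Emp w (Reg A (A + s1) μ k))
    (hv : Emp v (Reg (A + s1) (A + s) (-k) ν)) : Emp (Sum.elim w v) (Reg A (A + s) μ ν) := by
  have hfin : (Reg A (A + s) μ ν).Finite := Reg_finite hN
  obtain ⟨B, hB⟩ := (hfin.image Prod.fst).bddBelow
  have hB' : ∀ m ∈ Reg A (A + s) μ ν, B ≤ m.1 := fun m hm => hB ⟨m, hm, rfl⟩
  obtain ⟨S, hS⟩ : ∃ S : Set (ℤ × ℤ), S = {m | ((m.1 + B, m.2) : ℤ × ℤ) ∈ Reg A (A + s) μ ν ∧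
      (m.1 + B : ℝ) + k * m.2 ≤ A + s1} := ⟨_, rfl⟩
  obtain ⟨U, hU⟩ : ∃ U : Set (ℤ × ℤ), U = {m | ((m.1 + B, m.2) : ℤ × ℤ) ∈ Reg A (A + s) μ ν ∧
      A + s1 < (m.1 + B : ℝ) + k * m.2} := ⟨_, rfl⟩
  have hinj : Function.Injective (fun m : ℤ × ℤ => ((m.1 + B, m.2) : ℤ × ℤ)) := by
    rintro ⟨a, b⟩ ⟨c, d⟩ h
    simp only [Prod.mk.injEq, add_left_inj] at h
    exact Prod.ext h.1 h.2
  have hpre : {m : ℤ × ℤ | ((m.1 + B, m.2) : ℤ × ℤ) ∈ Reg A (A + s) μ ν}.Finite :=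
    hfin.preimage hinj.injOn
  have hSf : S.Finite := hpre.subset (by rw [hS]; exact fun m hm => hm.1)
  have hUf : U.Finite := hpre.subset (by rw [hU]; exact fun m hm => hm.1)
  have hpos : ∀ m : ℤ × ℤ, ((m.1 + B, m.2) : ℤ × ℤ) ∈ Reg A (A + s) μ ν → 0 ≤ m.1 ∧ 0 ≤ m.2 := by
    intro m hm
    have h1 := hB' _ hm
    simp only at h1
    exact ⟨by omega, hm.1⟩
  have h1 : Emp w S := by
    refine hw.comap 1 0 0 1 B 0 (by norm_num) ?_
    intro m hm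
    rw [hS] at hm
    obtain ⟨⟨g1, g2, g3⟩, g4⟩ := hm
    simp only at g1 g2 g3
    push_cast at g2 g3
    refine ⟨by simp only; omega, ?_, ?_⟩
    · simp only; push_cast; linarith
    · simp only; push_cast; linarith
  have h2 : Emp v U := by
    refine hv.comap 1 0 0 1 B 0 (by norm_num) ?_
    intro m hm
    rw [hU] at hm
    obtain ⟨⟨g1, g2, g3⟩, g4⟩ := hm
    simp only at g1 g2 g3
    push_cast at g2 g3
    refine ⟨by simp only; omega, ?_, ?_⟩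
    · simp only; push_cast; linarith
    · simp only; push_cast; linarith
  obtain ⟨a, b, hab⟩ := exists_int_sep hSf hUf 1 k (by
    intro m hm m' hm'
    rw [hS] at hm
    rw [hU] at hm'
    have g1 := hm.2
    have g2 := hm'.2
    linarith)
  have h3 := Pool.Agent.TH698.NagT3.Emp_cut hSf hUf
    (fun m hm => hpos m (by rw [hS] at hm; exact hm.1))
    (fun m hm => hpos m (by rw [hU] at hm; exact hm.1)) a b hab h1 h2
  refine h3.comap 1 0 0 1 (-B) 0 (by norm_num) ?_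
  intro m hm
  have e : ((1 * m.1 + 0 * m.2 + -B + B, 0 * m.1 + 1 * m.2 + 0) : ℤ × ℤ) = m := by
    ext
    · simp only; ring
    · simp only; ring
  by_cases hc : ((1 * m.1 + 0 * m.2 + -B : ℤ) : ℝ) + B + k * ((0 * m.1 + 1 * m.2 + 0 : ℤ) : ℝ) ≤
      A + s1
  · left
    rw [hS]
    exact ⟨by simp only; rw [e]; exact hm, hc⟩
  · right
    rw [hU]
    push Not at hc
    exact ⟨by simp only; rw [e]; exact hm, hc⟩

end Pool.Agent.TH906.WP
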