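import Pool.Agent.TH906.WP.Width
import Pool.Agent.TH906.WP.Absorb
import Pool.Agent.TH603.EL.Key
import Pool.Agent.TH181.Nag.Sys

set_option autoImplicit false

/-!
# Reached shapes

Absorption of several points in a corner followed by flattening.
-/

namespace Pool.Agent.TH906.WP

open Finset Pool.Agent.TH176.Nag Pool.Agent.TH181.NagM

theorem Emp_reindex {ι ι' : Type} {w : ι → ℕ} {S : Set (ℤ × ℤ)} (σ : ι' → ι)
    (hσ : Function.Surjective σ) (h : Emp w S) : Emp (fun i => w (σ i)) S := by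
  obtain ⟨K, _, _, x, y, hx, hy, hf⟩ := h
  refine ⟨K, inferInstance, inferInstance, fun i => x (σ i), fun i => y (σ i), fun i => hx _,
    fun i => hy _, fun f h1 h2 => hf f h1 fun i => ?_⟩
  obtain ⟨j, rfl⟩ := hσ i
  exact h2 j

/-- the region with left boundary `g` -/
def Rg (g : ℤ → ℝ) (B ν : ℝ) : Set (ℤ × ℤ) :=
  {m | 0 ≤ m.2 ∧ g m.2 ≤ (m.1 : ℝ) ∧ (m.1 : ℝ) ≤ B - ν * (m.2 : ℝ)}

/-- absorption of one point -/
theorem absorb_one {ι : Type} {w : ι → ℕ} (a0 : ℕ) (g : ℤ → ℝ) (B ν : ℝ) (hν : 0 ≤ ν)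
    (hg : ∀ i j : ℤ, 0 ≤ i → i ≤ j → g i ≤ g j)
    (h : Emp w (Rg (fun j => g j + max 0 ((a0 : ℝ) - j)) B ν)) :
    Emp (fun o : Option ι => o.elim a0 w) (Rg g B ν) := by
  refine Emp_absorb a0 ?_ ?_ h
  · rintro ⟨m1, m2⟩ ⟨h1, h2, h3⟩
    simp only at h1 h2 h3 ⊢
    refine ⟨h1, fun j hj0 hj => ⟨hj0, ?_, ?_⟩⟩
    · simp only
      exact (hg j m2 hj0 hj).trans h2
    · simp only
      have hj' : (j : ℝ) ≤ m2 := by exact_mod_cast hj
      nlinarith
  · rintro ⟨m1, m2⟩ ⟨h1, h2, h3⟩ Bs hB hcard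
    simp only at h1 h2 h3 hB hcard
    refine ⟨h1, ?_, h3⟩
    simp only
    rcases le_total ((a0 : ℝ) - m2) 0 with h0 | h0
    · rw [max_eq_left h0, add_zero]; exact h2
    · rw [max_eq_right h0]
      rcases h0.eq_or_lt with h0' | h0'
      · rw [← h0', add_zero]; exact h2
      have hpos : (0 : ℤ) < (a0 : ℤ) - m2 := by exact_mod_cast h0'
      have hne : Bs.Nonempty := card_pos.1 (by omega)
      obtain ⟨hlt, hmem⟩ := hB _ (Bs.min'_mem hne)
      have hsub : Bs ⊆ Finset.Ico (Bs.min' hne) m1 := by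
        intro b hb
        rw [Finset.mem_Ico]
        exact ⟨Bs.min'_le b hb, (hB b hb).1⟩
      have h4 := card_le_card hsub
      rw [Int.card_Ico] at h4
      have h5 : (a0 : ℤ) - m2 ≤ m1 - Bs.min' hne := by omega
      have h6 := hmem.2.1
      simp only at h6
      have h7 : ((a0 : ℝ) - m2) ≤ m1 - Bs.min' hne := by exact_mod_cast h5
      linarith

/-- absorption of several points -/
theorem absorb_many (r : ℕ) : ∀ {ι : Type} (a : Fin r → ℕ) (b : ι → ℕ) (g : ℤ → ℝ) (B ν : ℝ),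
    (r = 0 ∨ (0 ≤ ν ∧ ∀ i j : ℤ, 0 ≤ i → i ≤ j → g i + ((r : ℝ) - 1) * ((j : ℝ) - i) ≤ g j)) →
    Emp b (Rg (fun j => g j + ∑ i, max 0 ((a i : ℝ) - j)) B ν) →
    Emp (Sum.elim a b) (Rg g B ν) := by
  induction r with
  | zero =>
    intro ι a b g B ν hg h
    have h1 : Emp b (Rg g B ν) := by
      refine h.mono ?_
      rintro m ⟨h1, h2, h3⟩
      refine ⟨h1, ?_, h3⟩
      simpa using h2
    have e : Sum.elim a b = fun i => b ((Sum.elim (fun i : Fin 0 => i.elim0) id : Fin 0 ⊕ ι → ι) i) := by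
      funext i
      rcases i with i | i
      · exact i.elim0
      · rfl
    rw [e]
    exact Emp_reindex _ (fun i => ⟨.inr i, rfl⟩) h1
  | succ r ih =>
    intro ι a b g B ν hg h
    rcases hg with hg | ⟨hν, hg⟩
    · exact absurd hg (by omega)
    push_cast at hg
    have h1 : Emp (Sum.elim (fun i : Fin r => a i.succ) b)
        (Rg (fun j => g j + max 0 ((a 0 : ℝ) - j)) B ν) := by
      refine ih _ _ _ _ _ ?_ ?_
      · right
        refine ⟨hν, fun i j hi hij => ?_⟩
        have h2 := hg i j hi hij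
        have hij' : (i : ℝ) ≤ j := by exact_mod_cast hij
        have h3 : max 0 ((a 0 : ℝ) - i) ≤ max 0 ((a 0 : ℝ) - j) + (j - i) := by
          rcases le_total 0 ((a 0 : ℝ) - i) with h4 | h4
          · rw [max_eq_right h4]
            have := le_max_right 0 ((a 0 : ℝ) - j)
            linarith
          · rw [max_eq_left h4]
            have := le_max_left 0 ((a 0 : ℝ) - j)
            linarith
        linarith
      · refine h.mono ?_
        rintro m ⟨h2, h3, h4⟩
        refine ⟨h2, ?_, h4⟩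
        simp only at h3 ⊢
        rw [Fin.sum_univ_succ]
        linarith
    have h2 := absorb_one (a 0) g B ν hν (fun i j hi hij => by
      have h3 := hg i j hi hij
      have hij' : (i : ℝ) ≤ j := by exact_mod_cast hij
      have h4 : (0 : ℝ) ≤ (r : ℝ) := Nat.cast_nonneg r
      nlinarith) h1
    obtain ⟨τ, hτ0, hτs⟩ : ∃ τ : Fin (r + 1) → Option (Fin r ⊕ ι), τ 0 = none ∧
        ∀ i : Fin r, τ i.succ = some (.inl i) :=
      ⟨Fin.cases (motive := fun _ => Option (Fin r ⊕ ι)) none (fun i => some (.inl i)),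
        rfl, fun i => rfl⟩
    obtain ⟨σ, hσl, hσr⟩ : ∃ σ : Fin (r + 1) ⊕ ι → Option (Fin r ⊕ ι),
        (∀ i, σ (.inl i) = τ i) ∧ ∀ i, σ (.inr i) = some (.inr i) :=
      ⟨Sum.elim τ (fun i => some (.inr i)), fun i => rfl, fun i => rfl⟩
    have e : Sum.elim a b = fun i => (fun o : Option (Fin r ⊕ ι) =>
        o.elim (a 0) (Sum.elim (fun i : Fin r => a i.succ) b)) (σ i) := by
      funext i
      rcases i with i | i
      · rw [hσl]
        rcases Fin.eq_zero_or_eq_succ i with rfl | ⟨j, rfl⟩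
        · rw [hτ0]; rfl
        · rw [hτs]; rfl
      · rw [hσr]; rfl
    rw [e]
    refine Emp_reindex σ ?_ h2
    rintro (_ | i | i)
    · exact ⟨.inl 0, by rw [hσl, hτ0]⟩
    · exact ⟨.inl i.succ, by rw [hσl, hτs]⟩
    · exact ⟨.inr i, hσr i⟩

/-- the rule for one step of the reduction -/
theorem step_emp {ι : Type} {r : ℕ} {a : Fin r → ℕ} {b : ι → ℕ} {μ ν : ℝ} {u v : ℤ}
    (hco : IsCoprime u v) (hu : 0 ≤ u) (hr : r = 0 ∨ ((r : ℝ) ≤ μ + 1 ∧ 0 ≤ ν))
    (hh : 0 ≤ u * μ + v) (hN : 0 < μ + ν) {c l : ℝ} (hc : c = max (u : ℝ) ((u * μ + v) / (μ + ν)))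
    (hl : l = min (u : ℝ) ((u * μ + v) / r)) {A s : ℝ}
    (h : ∀ A' : ℝ, Emp b (Reg A' (A' + (c * s - l * ∑ i, (a i : ℝ)))
      (u * (u * μ + v) - r * l ^ 2) (c ^ 2 * (μ + ν) - u * (u * μ + v)))) :
    Emp (Sum.elim a b) (Reg A (A + s) μ ν) := by
  obtain ⟨p, q, hpq⟩ := hco
  have hu' : (0 : ℝ) ≤ u := by exact_mod_cast hu
  obtain ⟨H, hH⟩ : ∃ H : ℝ, H = u * μ + v := ⟨_, rfl⟩
  rw [← hH] at hh hc hl
  have h0 := absorb_many r a b (fun j => A + μ * j) (A + s) ν (by
    rcases hr with hr | ⟨hr, hν⟩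
    · exact .inl hr
    · right
      refine ⟨hν, fun i j hi hij => ?_⟩
      have hij' : (i : ℝ) ≤ j := by exact_mod_cast hij
      nlinarith)
  refine h0 ?_
  refine (NagSys.Emp (ι := ι)).flat u v p q (by linarith) ?_ (h (u * A + l * ∑ i, (a i : ℝ)))
  rintro ⟨x1, y1⟩ T k ⟨hb, hlb, hrb⟩ ⟨hb', hlb', hrb'⟩ hk
  simp only at hb hlb hrb hb' hlb' hrb'
  push_cast at hlb' hrb'
  have hb0 : (0 : ℝ) ≤ y1 := by exact_mod_cast hb
  have hk' : (k : ℝ) ≤ T := by exact_mod_cast hk
  have hk0 : (0 : ℝ) ≤ (k : ℝ) := Nat.cast_nonneg k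
  have hT0 : (0 : ℝ) ≤ T := hk0.trans hk'
  -- the two lower bounds for the sums
  have hs0 : ∀ t : ℝ, 0 ≤ ∑ i, max 0 ((a i : ℝ) - t) := fun t =>
    sum_nonneg fun i _ => le_max_left _ _
  have hs1 : ∀ t : ℝ, ∑ i, (a i : ℝ) - r * t ≤ ∑ i, max 0 ((a i : ℝ) - t) := by
    intro t
    have h1 : ∑ i : Fin r, ((a i : ℝ) - t) ≤ ∑ i, max 0 ((a i : ℝ) - t) :=
      sum_le_sum fun i _ => le_max_right _ _
    rw [sum_sub_distrib] at h1
    simpa using h1
  obtain ⟨Sa, hSa⟩ : ∃ Sa : ℝ, Sa = ∑ i, (a i : ℝ) := ⟨_, rfl⟩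
  obtain ⟨s1, hs1'⟩ : ∃ s1 : ℝ, s1 = ∑ i, max 0 ((a i : ℝ) - y1) := ⟨_, rfl⟩
  obtain ⟨s2, hs2'⟩ : ∃ s2 : ℝ, s2 = ∑ i, max 0 ((a i : ℝ) - (y1 + u * T)) := ⟨_, rfl⟩
  have e1 := hs0 y1
  have e2 := hs1 y1
  have e3 := hs0 (y1 + u * T)
  have e4 := hs1 (y1 + u * T)
  rw [← hs1'] at e1 e2 hlb
  rw [← hs2'] at e3 e4 hlb'
  rw [← hSa] at e2 e4 ⊢
  rw [← hH]
  obtain ⟨X, hX⟩ : ∃ X : ℝ, X = x1 - v * T := ⟨_, rfl⟩
  obtain ⟨Y, hY⟩ : ∃ Y : ℝ, Y = y1 + u * T := ⟨_, rfl⟩
  rw [← hX, ← hY] at hlb' hrb'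
  rw [← hY] at e4
  have hval : (u : ℝ) * x1 + v * y1 = u * X + v * Y := by rw [hX, hY]; ring
  have huT : (u : ℝ) * T ≤ Y := by rw [hY]; linarith
  have hukT : (u : ℝ) * k ≤ u * T := mul_le_mul_of_nonneg_left hk' hu'
  have hY0 : 0 ≤ Y := le_trans (mul_nonneg hu' hT0) huT
  refine ⟨by simp, ?_, ?_⟩
  · -- the left edge
    simp only
    push_cast
    have v1 : u * A + H * Y + u * s2 ≤ u * x1 + v * y1 := by
      rw [hval, hH]
      linarith [mul_le_mul_of_nonneg_left hlb' hu']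
    have v2 : u * A + H * y1 + u * s1 ≤ u * x1 + v * y1 := by
      rw [hH]
      linarith [mul_le_mul_of_nonneg_left hlb hu']
    rcases Nat.eq_zero_or_pos r with rfl | hr0
    · have hSa0 : Sa = 0 := by rw [hSa]; simp
      have hl0 : u * s2 ≥ 0 := mul_nonneg hu' e3
      have h5 : H * (u * k) ≤ H * Y := mul_le_mul_of_nonneg_left (hukT.trans huT) hh
      rw [hSa0]
      simp only [Nat.cast_zero, zero_mul, sub_zero, mul_zero, add_zero]
      linarith
    have hr0' : (0 : ℝ) < r := by exact_mod_cast hr0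
    rcases le_total (u : ℝ) (H / r) with h5 | h5
    · rw [min_eq_left h5] at hl
      rw [hl]
      rw [le_div_iff₀ hr0'] at h5
      have h6 : (H - u * r) * (u * k) ≤ (H - u * r) * Y :=
        mul_le_mul_of_nonneg_left (hukT.trans huT) (by linarith)
      have h7 : u * (Sa - r * Y) ≤ u * s2 := mul_le_mul_of_nonneg_left e4 hu'
      linarith
    · rw [min_eq_right h5] at hl
      have hrl : r * l = H := by rw [hl]; field_simp
      have hlu : l ≤ u := by rw [hl]; exact h5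
      have hl0 : 0 ≤ l := by rw [hl]; positivity
      have hu0 : (0 : ℝ) < u := by
        rcases hu'.eq_or_lt with h6 | h6
        · exfalso
          have h7 : l = 0 := by linarith
          have h8 : H = 0 := by rw [← hrl, h7, mul_zero]
          have h9 : (v : ℝ) = 0 := by
            rw [h8, ← h6] at hH
            linarith
          have h10 : u = 0 := by exact_mod_cast h6.symm
          have h11 : v = 0 := by exact_mod_cast h9
          rw [h10, h11] at hpq
          simp at hpq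
        · exact h6
      have w1 : l * (u * A + u * Sa + (H - r * u) * y1) ≤ l * (u * x1 + v * y1) := by
        refine mul_le_mul_of_nonneg_left ?_ hl0
        have := mul_le_mul_of_nonneg_left e2 hu'
        linarith
      have w2 : (u - l) * (u * A + H * Y) ≤ (u - l) * (u * x1 + v * y1) := by
        refine mul_le_mul_of_nonneg_left ?_ (by linarith)
        have := mul_nonneg hu' e3
        linarith
      have w3 : (u - l) * H * k ≤ (u - l) * H * T :=
        mul_le_mul_of_nonneg_left hk' (mul_nonneg (by linarith) hh)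
      have w4 : u * (u * A + l * Sa + (u - l) * H * T) ≤ u * (u * x1 + v * y1) := by
        have e5 : l * (u * A + u * Sa + (H - r * u) * y1) + (u - l) * (u * A + H * Y) =
            u * (u * A + l * Sa + (u - l) * H * T) := by
          rw [hY]
          linear_combination (-(u : ℝ) * y1) * hrl
        linarith
      have w5 := le_of_mul_le_mul_left w4 hu0
      have e6 : (u * H - r * l ^ 2) = (u - l) * H := by
        linear_combination (-l) * hrl
      rw [e6]
      linarith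
  · -- the right edge
    simp only
    push_cast
    rcases le_total (u : ℝ) (H / (μ + ν)) with h5 | h5
    · rw [max_eq_right h5] at hc
      have hcN : c * (μ + ν) = H := by rw [hc]; field_simp
      rw [le_div_iff₀ hN] at h5
      have p1 : 0 ≤ (H - u * (μ + ν)) * (X - (A + μ * Y)) :=
        mul_nonneg (by linarith) (by linarith)
      have p2 : 0 ≤ H * (A + s - ν * y1 - x1) := mul_nonneg hh (by linarith)
      have p3 : 0 ≤ (H - u * (μ + ν)) * H * (T - k) :=
        mul_nonneg (mul_nonneg (by linarith) hh) (by linarith)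
      have e5 : (μ + ν) * (u * A + l * Sa + (c * s - l * Sa) - (c ^ 2 * (μ + ν) - u * H) * k -
          (u * x1 + v * y1)) = (H - u * (μ + ν)) * (X - (A + μ * Y)) +
          H * (A + s - ν * y1 - x1) + (H - u * (μ + ν)) * H * (T - k) := by
        rw [hX, hY]
        linear_combination (s - k * (c * (μ + ν) + H)) * hcN +
          ((μ + ν) * y1 - (H - u * (μ + ν)) * T) * hH
      have p4 : 0 ≤ (μ + ν) * (u * A + l * Sa + (c * s - l * Sa) -
          (c ^ 2 * (μ + ν) - u * H) * k - (u * x1 + v * y1)) := by rw [e5]; linarith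
      have p5 := nonneg_of_mul_nonneg_right p4 hN
      linarith
    · rw [max_eq_left h5] at hc
      rw [div_le_iff₀ hN] at h5
      rw [hc]
      have h6 : v ≤ u * ν := by
        rw [hH] at h5
        linarith
      have h7 : (u * ν - v) * (u * k) ≤ (u * ν - v) * Y :=
        mul_le_mul_of_nonneg_left (hukT.trans huT) (by linarith)
      have h8 : u * X ≤ u * (A + s - ν * Y) := mul_le_mul_of_nonneg_left hrb' hu'
      have e7 : ((u : ℝ) ^ 2 * (μ + ν) - u * H) * k = (u * ν - v) * (u * k) := by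
        rw [hH]; ring
      rw [hval, e7]
      linarith

end Pool.Agent.TH906.WP
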