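import Pool.Agent.TH906.WP.Reach
import Pool.Agent.TH545.Nag.Nf

set_option autoImplicit false

/-!
# The closed system of reached data
-/

namespace Pool.Agent.TH906.WP

open Finset Pool.Agent.TH176.Nag Pool.Agent.TH181.NagM Pool.Agent.H350R3

/-- `Rch k C L μ ν`: the plane of degree `e` with `k` points of multiplicities `a_j` is reduced to
the triangle of shape `(μ, ν)` (left side `x = μ y`, right side `x = s - ν y`) of base
`s = C e - ∑ L_j a_j`. One starts with `C = 3` and the shapes `(μ, 9 - μ)`, `μ` real. -/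
inductive Rch : (k : ℕ) → ℝ → (Fin k → ℝ) → ℝ → ℝ → Prop
  | start (L : Fin 0 → ℝ) (μ : ℝ) : Rch 0 3 L μ (9 - μ)
  | shear (k : ℕ) (C : ℝ) (L : Fin k → ℝ) (μ ν : ℝ) (z : ℤ) :
      Rch k C L μ ν → Rch k C L (μ + z) (ν - z)
  | mirror (k : ℕ) (C : ℝ) (L : Fin k → ℝ) (μ ν : ℝ) : Rch k C L μ ν → Rch k C L ν μ
  | step (k : ℕ) (C : ℝ) (L : Fin k → ℝ) (μ ν : ℝ) (r : ℕ) (u v : ℤ) (c l : ℝ) :
      Rch k C L μ ν → IsCoprime u v → 0 ≤ u → (r = 0 ∨ ((r : ℝ) ≤ μ + 1 ∧ 0 ≤ ν)) →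
      0 < μ + ν → 0 ≤ u * μ + v → c = max (u : ℝ) ((u * μ + v) / (μ + ν)) →
      l = min (u : ℝ) ((u * μ + v) / r) →
      Rch (k + r) (c * C) (Fin.append (fun j => c * L j) fun _ : Fin r => l)
        (u * (u * μ + v) - r * l ^ 2) (c ^ 2 * (μ + ν) - u * (u * μ + v))

theorem Emp_shear {ι : Type} {w : ι → ℕ} {A B μ ν : ℝ} (z : ℤ)
    (h : Emp w (Reg A B (μ + z) (ν - z))) : Emp w (Reg A B μ ν) := by
  refine h.comap 1 z 0 1 0 0 (by norm_num) ?_
  rintro ⟨a, b⟩ ⟨hb, hl, hr⟩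
  simp only at hb hl hr
  refine ⟨by simpa using hb, ?_, ?_⟩
  · simp only; push_cast; linarith
  · simp only; push_cast; linarith

theorem Rch.props {k : ℕ} {C : ℝ} {L : Fin k → ℝ} {μ ν : ℝ} (h : Rch k C L μ ν) :
    0 < C ∧ (∀ j, 0 ≤ L j) ∧ C ^ 2 - ∑ j, L j ^ 2 = μ + ν := by
  induction h with
  | start L μ => exact ⟨by norm_num, fun j => j.elim0, by simp; norm_num⟩
  | shear k C L μ ν z _ ih => exact ⟨ih.1, ih.2.1, by rw [ih.2.2]; ring⟩
  | mirror k C L μ ν _ ih => exact ⟨ih.1, ih.2.1, by rw [ih.2.2]; ring⟩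
  | step k C L μ ν r u v c l _ hco hu hr hN hh hc hl ih =>
    obtain ⟨h1, h2, h3⟩ := ih
    have hu' : (0 : ℝ) ≤ u := by exact_mod_cast hu
    have hc0 : 0 < c := by
      rcases hu.eq_or_lt with h4 | h4
      · have hv : v ≠ 0 := by
          rintro rfl
          rw [← h4] at hco
          exact not_isCoprime_zero_zero hco
        have hh' : (0 : ℝ) ≤ v := by
          rw [← h4] at hh
          simpa using hh
        have hv' : (0 : ℝ) < v := lt_of_le_of_ne hh' (by exact_mod_cast hv.symm)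
        rw [hc, ← h4]
        refine lt_max_of_lt_right ?_
        simp only [Int.cast_zero, zero_mul, zero_add]
        positivity
      · rw [hc]
        exact lt_max_of_lt_left (by exact_mod_cast h4)
    have hl0 : 0 ≤ l := by rw [hl]; exact le_min hu' (by positivity)
    refine ⟨mul_pos hc0 h1, fun j => ?_, ?_⟩
    · refine Fin.addCases (fun j => ?_) (fun j => ?_) j
      · rw [Fin.append_left]; exact mul_nonneg hc0.le (h2 j)
      · rw [Fin.append_right]; exact hl0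
    · rw [Fin.sum_univ_add]
      simp only [Fin.append_left, Fin.append_right, sum_const, card_univ, Fintype.card_fin,
        nsmul_eq_mul, mul_pow]
      rw [← mul_sum]
      linear_combination c ^ 2 * h3

theorem sum_elim_reindex {k r : ℕ} {ι : Type} (a : Fin (k + r) → ℕ) (b : ι → ℕ)
    {S : Set (ℤ × ℤ)} (h : Emp (Sum.elim (fun i : Fin k => a (Fin.castAdd r i))
      (Sum.elim (fun i : Fin r => a (Fin.natAdd k i)) b)) S) : Emp (Sum.elim a b) S := by
  obtain ⟨τ, hτ1, hτ2⟩ : ∃ τ : Fin (k + r) → Fin k ⊕ (Fin r ⊕ ι),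
      (∀ i, τ (Fin.castAdd r i) = .inl i) ∧ ∀ i, τ (Fin.natAdd k i) = .inr (.inl i) :=
    ⟨Fin.addCases (motive := fun _ => Fin k ⊕ (Fin r ⊕ ι)) (fun i => .inl i)
      (fun i => .inr (.inl i)), fun i => by simp, fun i => by simp⟩
  obtain ⟨σ, hσl, hσr⟩ : ∃ σ : Fin (k + r) ⊕ ι → Fin k ⊕ (Fin r ⊕ ι),
      (∀ i, σ (.inl i) = τ i) ∧ ∀ i, σ (.inr i) = .inr (.inr i) :=
    ⟨Sum.elim τ (fun i => .inr (.inr i)), fun i => rfl, fun i => rfl⟩
  have e : Sum.elim a b = fun i => (Sum.elim (fun i : Fin k => a (Fin.castAdd r i))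
      (Sum.elim (fun i : Fin r => a (Fin.natAdd k i)) b)) (σ i) := by
    funext i
    rcases i with i | i
    · rw [hσl]
      refine Fin.addCases (fun i => ?_) (fun i => ?_) i
      · rw [hτ1]; rfl
      · rw [hτ2]; rfl
    · rw [hσr]; rfl
  rw [e]
  refine Emp_reindex σ ?_ h
  rintro (i | i | i)
  · exact ⟨.inl (Fin.castAdd r i), by rw [hσl, hτ1]⟩
  · exact ⟨.inl (Fin.natAdd k i), by rw [hσl, hτ2]⟩
  · exact ⟨.inr i, hσr i⟩

theorem Rch.red {k : ℕ} {C : ℝ} {L : Fin k → ℝ} {μ ν : ℝ} (h : Rch k C L μ ν) :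
    ∀ {ι : Type} (a : Fin k → ℕ) (b : ι → ℕ) (e : ℕ),
      (∀ A : ℝ, Emp b (Reg A (A + (C * e - ∑ j, L j * a j)) μ ν)) →
      Emp (Sum.elim a b) {m : ℤ × ℤ | 0 ≤ m.1 ∧ 0 ≤ m.2 ∧ m.1 + m.2 ≤ (e : ℤ)} := by
  induction h with
  | start L μ =>
    intro ι a b e h
    have e1 : Sum.elim a b =
        fun i => b ((Sum.elim (fun i : Fin 0 => i.elim0) id : Fin 0 ⊕ ι → ι) i) := by
      funext i
      rcases i with i | i
      · exact i.elim0
      · rfl
    rw [e1]
    refine Emp_reindex _ (fun i => ⟨.inr i, rfl⟩) ?_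
    obtain ⟨z, hz⟩ : ∃ z : ℤ, z = ⌈μ⌉ - 5 := ⟨_, rfl⟩
    have hz1 : μ - z ≤ 5 := by
      rw [hz]; push_cast
      have := Int.le_ceil μ
      linarith
    have hz2 : 4 < μ - z := by
      rw [hz]; push_cast
      have := Int.ceil_lt_add_one μ
      linarith
    obtain ⟨τ, hτ⟩ : ∃ τ : ℝ, τ = (μ - z) / 3 - 1 := ⟨_, rfl⟩
    have hμ : μ = 3 * (1 + τ) + z := by rw [hτ]; ring
    refine Pool.Agent.TH603.EL.Emp_key (τ := τ) (by rw [hτ]; linarith) (by rw [hτ]; linarith) ?_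
    refine Emp_shear z ?_
    have h1 := h (-((e : ℝ) * (1 + τ)))
    rw [univ_eq_empty, sum_empty, sub_zero] at h1
    have e2 : -((e : ℝ) * (1 + τ)) + 3 * e = e * (2 - τ) := by ring
    have e3 : (9 : ℝ) - μ = 3 * (2 - τ) - z := by rw [hμ]; ring
    rw [e2, e3, hμ] at h1
    exact h1
  | shear k C L μ ν z _ ih =>
    intro ι a b e h
    exact ih a b e fun A => Emp_shear z (h A)
  | mirror k C L μ ν _ ih =>
    intro ι a b e h
    refine ih a b e fun A => ?_
    refine (NagSys.Emp (ι := ι)).mirror ?_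
    have h1 := h (-(A + (C * e - ∑ j, L j * a j)))
    have e1 : -(A + (C * e - ∑ j, L j * a j)) + (C * e - ∑ j, L j * a j) = -A := by ring
    rw [e1] at h1
    exact h1
  | step k C L μ ν r u v c l _ hco hu hr hN hh hc hl ih =>
    intro ι a b e h
    refine sum_elim_reindex a b ?_
    refine ih _ _ e fun A => ?_
    refine step_emp hco hu hr hh hN hc hl fun A' => ?_
    have h1 := h A'
    have e1 : c * C * e - ∑ j, Fin.append (fun j => c * L j) (fun _ : Fin r => l) j * a j =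
        c * (C * e - ∑ j, L j * a (Fin.castAdd r j)) - l * ∑ i, (a (Fin.natAdd k i) : ℝ) := by
      rw [Fin.sum_univ_add]
      simp only [Fin.append_left, Fin.append_right, mul_assoc]
      rw [← mul_sum, ← mul_sum]
      ring
    rw [e1] at h1
    exact h1

/-- the nef classes of the reached data -/
theorem Rch.nf {k n : ℕ} {C : ℝ} {L : Fin k → ℝ} {μ ν : ℝ} (h : Rch k C L μ ν)
    (hN : 0 < μ + ν) {I : Type} [Fintype I] (x y : Fin n → ℂ) (hx : ∀ j, x j ≠ 0)
    (hy : ∀ j, y j ≠ 0) (hinj : ∀ j l, x j = x l → y j = y l → j = l)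
    (a b : I → ℤ) (hco : ∀ i, IsCoprime (a i) (b i)) (hb : ∀ i, 0 ≤ b i) (c : I → ℂ)
    (hc : ∀ i, c i ≠ 0) (β : I → ℝ) (hβ : ∀ i, 0 ≤ β i) (M : Fin n → ℝ)
    (hM : ∀ j, M j = ∑ i, by classical exact if x j ^ a i * y j ^ b i = c i then β i else 0)
    (h1 : ∑ i, β i * Wd μ ν (a i) (b i) ≤ μ + ν)
    (h2 : ∀ i, (∑ j, by classical exact if x j ^ a i * y j ^ b i = c i then M j else 0) ≤
      Wd μ ν (a i) (b i)) :
    NB.Nf ℂ (Fin.append L M) C := by
  classical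
  intro w d hd
  apply Pool.Agent.TH545.Nag.nbEmp_of_Emp
  have hMk : M = Mk x y a b c β := by
    funext j
    rw [hM j]
    rfl
  have h3 := h.red (fun j => w (Fin.castAdd n j)) (fun j => w (Fin.natAdd k j)) d (fun A => by
    refine Emp_width x y hx hy hinj a b hco hb c hc β hβ hN h1 ?_ _ A _ ?_
    · intro i
      refine le_trans (le_of_eq ?_) (h2 i)
      refine sum_congr rfl fun j _ => ?_
      rw [hMk]
    · rw [Fin.sum_univ_add] at hd
      simp only [Fin.append_left, Fin.append_right] at hd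
      rw [← hMk]
      linarith)
  obtain ⟨τ, hτ1, hτ2⟩ : ∃ τ : Fin (k + n) → Fin k ⊕ Fin n,
      (∀ i, τ (Fin.castAdd n i) = .inl i) ∧ ∀ i, τ (Fin.natAdd k i) = .inr i :=
    ⟨Fin.addCases (motive := fun _ => Fin k ⊕ Fin n) (fun i => .inl i)
      (fun i => .inr i), fun i => by simp, fun i => by simp⟩
  have e : w = fun i => (Sum.elim (fun j : Fin k => w (Fin.castAdd n j))
      (fun j : Fin n => w (Fin.natAdd k j))) (τ i) := by
    funext i
    refine Fin.addCases (fun i => ?_) (fun i => ?_) i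
    · rw [hτ1]; rfl
    · rw [hτ2]; rfl
  rw [e]
  refine Emp_reindex τ ?_ h3
  rintro (i | i)
  · exact ⟨Fin.castAdd n i, hτ1 i⟩
  · exact ⟨Fin.natAdd k i, hτ2 i⟩

end Pool.Agent.TH906.WP
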