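import Pool.Agent.TH906.WP.Sys
import Pool.Agent.TH906.WP.Join

set_option autoImplicit false

/-!
# Good weights for triangles

The semantic predicate and the rules.
-/

namespace Pool.Agent.TH906.WP

open Finset Pool.Agent.TH176.Nag Pool.Agent.TH181.NagM Pool.Agent.H350R3

/-- emptiness for the triangles of shape `(μ, ν)` and all multiplicities with `s < ∑ M_j w_j` -/
def Gd (μ ν : ℝ) {n : ℕ} (M : Fin n → ℝ) : Prop :=
  ∀ (w : Fin n → ℕ) (A s : ℝ), s < ∑ j, M j * w j → Emp w (Reg A (A + s) μ ν)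

theorem Gd.shear {μ ν : ℝ} {n : ℕ} {M : Fin n → ℝ} (z : ℤ) (h : Gd (μ + z) (ν - z) M) :
    Gd μ ν M := fun w A s hs => Emp_shear z (h w A s hs)

theorem Gd.mirror {μ ν : ℝ} {n : ℕ} {M : Fin n → ℝ} (h : Gd ν μ M) : Gd μ ν M := by
  intro w A s hs
  refine (NagSys.Emp (ι := Fin n)).mirror ?_
  have h1 := h w (-(A + s)) s hs
  have e1 : -(A + s) + s = -A := by ring
  rw [e1] at h1
  exact h1

/-- a weight vector on `Fin (m + n)` from its two parts -/
theorem Emp_append {m n : ℕ} (w : Fin (m + n) → ℕ) {S : Set (ℤ × ℤ)}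
    (h : Emp (Sum.elim (fun j : Fin m => w (Fin.castAdd n j))
      (fun j : Fin n => w (Fin.natAdd m j))) S) : Emp w S := by
  obtain ⟨τ, hτ1, hτ2⟩ : ∃ τ : Fin (m + n) → Fin m ⊕ Fin n,
      (∀ i, τ (Fin.castAdd n i) = .inl i) ∧ ∀ i, τ (Fin.natAdd m i) = .inr i :=
    ⟨Fin.addCases (motive := fun _ => Fin m ⊕ Fin n) (fun i => .inl i)
      (fun i => .inr i), fun i => by simp, fun i => by simp⟩
  have e : w = fun i => (Sum.elim (fun j : Fin m => w (Fin.castAdd n j))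
      (fun j : Fin n => w (Fin.natAdd m j))) (τ i) := by
    funext i
    refine Fin.addCases (fun i => ?_) (fun i => ?_) i
    · rw [hτ1]; rfl
    · rw [hτ2]; rfl
  rw [e]
  refine Emp_reindex τ ?_ h
  rintro (i | i)
  · exact ⟨Fin.castAdd n i, hτ1 i⟩
  · exact ⟨Fin.natAdd m i, hτ2 i⟩

theorem Gd.join {μ ν k : ℝ} {m n : ℕ} {M : Fin m → ℝ} {M' : Fin n → ℝ} (hN : 0 < μ + ν)
    (h : Gd μ k M) (h' : Gd (-k) ν M') : Gd μ ν (Fin.append M M') := by
  intro w A s hs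
  refine Emp_append w ?_
  rw [Fin.sum_univ_add] at hs
  simp only [Fin.append_left, Fin.append_right] at hs
  obtain ⟨X, hX⟩ : ∃ X : ℝ, X = ∑ j, M j * (w (Fin.castAdd n j) : ℝ) := ⟨_, rfl⟩
  obtain ⟨Y, hY⟩ : ∃ Y : ℝ, Y = ∑ j, M' j * (w (Fin.natAdd m j) : ℝ) := ⟨_, rfl⟩
  rw [← hX, ← hY] at hs
  obtain ⟨s1, h1, h2⟩ : ∃ s1 : ℝ, s1 < X ∧ s - s1 < Y :=
    ⟨X - (X + Y - s) / 2, by linarith, by linarith⟩
  refine Emp_join (k := k) (s1 := s1) hN (h _ A s1 (by rw [← hX]; exact h1)) ?_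
  have h3 := h' (fun j => w (Fin.natAdd m j)) (A + s1) (s - s1) (by rw [← hY]; exact h2)
  have e : A + s1 + (s - s1) = A + s := by ring
  rw [e] at h3
  exact h3

theorem cpos {u v : ℤ} (hco : IsCoprime u v) (hu : 0 ≤ u) {μ ν : ℝ} (hN : 0 < μ + ν)
    (hh : 0 ≤ u * μ + v) {c : ℝ} (hc : c = max (u : ℝ) ((u * μ + v) / (μ + ν))) : 0 < c := by
  rcases hu.eq_or_lt with h4 | h4
  · have hv : v ≠ 0 := by
      rintro rfl
      rw [← h4] at hco
      exact not_isCoprime_zero_zero hco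
    have hh' : (0 : ℝ) ≤ v := by
      rw [← h4] at hh
      simpa using hh
    have hv' : (0 : ℝ) < v := lt_of_le_of_ne hh' (by exact_mod_cast hv.symm)
    rw [hc, ← h4]
    refine lt_max_of_lt_right ?_
    simp only [Int.cast_zero, zero_mul, zero_add]
    positivity
  · rw [hc]
    exact lt_max_of_lt_left (by exact_mod_cast h4)

theorem Gd.step {μ ν : ℝ} {n r : ℕ} {M : Fin n → ℝ} {u v : ℤ} {c l : ℝ} (hco : IsCoprime u v)
    (hu : 0 ≤ u) (hr : r = 0 ∨ ((r : ℝ) ≤ μ + 1 ∧ 0 ≤ ν)) (hN : 0 < μ + ν)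
    (hh : 0 ≤ u * μ + v) (hc : c = max (u : ℝ) ((u * μ + v) / (μ + ν)))
    (hl : l = min (u : ℝ) ((u * μ + v) / r))
    (h : Gd (u * (u * μ + v) - r * l ^ 2) (c ^ 2 * (μ + ν) - u * (u * μ + v)) M) :
    Gd μ ν (Fin.append (fun _ : Fin r => l / c) fun j => M j / c) := by
  have hc0 := cpos hco hu hN hh hc
  intro w A s hs
  refine Emp_append w ?_
  rw [Fin.sum_univ_add] at hs
  simp only [Fin.append_left, Fin.append_right] at hs
  refine step_emp hco hu hr hh hN hc hl fun A' => ?_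
  refine h _ A' _ ?_
  have e1 : ∑ j : Fin r, l / c * (w (Fin.castAdd n j) : ℝ) =
      (l * ∑ j : Fin r, (w (Fin.castAdd n j) : ℝ)) / c := by
    rw [mul_sum, sum_div]
    exact sum_congr rfl fun j _ => by ring
  have e2 : ∑ j : Fin n, M j / c * (w (Fin.natAdd r j) : ℝ) =
      (∑ j : Fin n, M j * (w (Fin.natAdd r j) : ℝ)) / c := by
    rw [sum_div]
    exact sum_congr rfl fun j _ => by ring
  rw [e1, e2, ← add_div, lt_div_iff₀ hc0] at hs
  linarith

/-- the plane curve case -/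
theorem Gd.cubic {μ : ℝ} {n : ℕ} {M : Fin n → ℝ} (h : Gd μ (9 - μ) M) :
    Gd 0 1 fun j => M j / 3 := by
  intro w A s hs
  have e1 : ∑ j, M j / 3 * (w j : ℝ) = (∑ j, M j * (w j : ℝ)) / 3 := by
    rw [sum_div]
    exact sum_congr rfl fun j _ => by ring
  rw [e1, lt_div_iff₀ (by norm_num)] at hs
  rcases lt_or_ge (⌊A + s⌋ - ⌈A⌉) 0 with hneg | hpos
  · -- the region is empty
    have h1 := h w 0 (s * 3) (by linarith)
    refine h1.comap 1 0 0 1 0 0 (by norm_num) ?_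
    rintro ⟨x, y⟩ ⟨hy, hl, hr⟩
    exfalso
    simp only at hy hl hr
    have hy0 : (0 : ℝ) ≤ y := by exact_mod_cast hy
    have g1 : ⌈A⌉ ≤ x := Int.ceil_le.2 (by linarith)
    have g2 : x ≤ ⌊A + s⌋ := Int.le_floor.2 (by linarith)
    omega
  · obtain ⟨d, hd⟩ := Int.eq_ofNat_of_zero_le hpos
    have hds : (d : ℝ) ≤ s := by
      have h1 : ((d : ℤ) : ℝ) = ((⌊A + s⌋ : ℤ) : ℝ) - ((⌈A⌉ : ℤ) : ℝ) := by
        rw [← Int.cast_sub, ← hd]
      have h2 := Int.floor_le (A + s)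
      have h3 := Int.le_ceil A
      push_cast at h1
      linarith
    have h1 : Emp w {m : ℤ × ℤ | 0 ≤ m.1 ∧ 0 ≤ m.2 ∧ m.1 + m.2 ≤ (d : ℤ)} := by
      have h2 := (Rch.start (fun j : Fin 0 => j.elim0) μ).red (fun j : Fin 0 => j.elim0) w d
        (fun B => h w B _ (by
          rw [univ_eq_empty, sum_empty, sub_zero]
          linarith))
      have e : (fun i => (Sum.elim (fun j : Fin 0 => j.elim0) w : Fin 0 ⊕ Fin n → ℕ) (.inr i)) = w :=
        rfl
      obtain ⟨K, _, _, x, y, hx, hy, hf⟩ := h2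
      refine ⟨K, inferInstance, inferInstance, fun i => x (.inr i), fun i => y (.inr i),
        fun i => hx _, fun i => hy _, fun f g1 g2 => hf f g1 fun i => ?_⟩
      rcases i with i | i
      · exact i.elim0
      · exact g2 i
    refine h1.comap 1 0 0 1 (-⌈A⌉) 0 (by norm_num) ?_
    rintro ⟨x, y⟩ ⟨hy, hl, hr⟩
    simp only at hy hl hr
    have hy0 : (0 : ℝ) ≤ y := by exact_mod_cast hy
    have g1 : ⌈A⌉ ≤ x := Int.ceil_le.2 (by linarith)
    have g2 : x + y ≤ ⌊A + s⌋ := Int.le_floor.2 (by push_cast; linarith)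
    have hd' : (d : ℤ) = ⌊A + s⌋ - ⌈A⌉ := hd.symm
    refine ⟨?_, ?_, ?_⟩
    · simp only; omega
    · simp only; omega
    · simp only; omega

/-- nef classes from good weights for the plane -/
theorem Gd.nf {n : ℕ} {M : Fin n → ℝ} (h : Gd 0 1 M) : NB.Nf ℂ M 1 := by
  intro w d hd
  apply Pool.Agent.TH545.Nag.nbEmp_of_Emp
  have h1 := h w 0 d (by linarith)
  refine h1.mono ?_
  rintro ⟨x, y⟩ ⟨hx, hy, hxy⟩
  simp only at hx hy hxy
  have hx' : (0 : ℝ) ≤ x := by exact_mod_cast hx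
  have hxy' : (x : ℝ) + y ≤ d := by exact_mod_cast hxy
  refine ⟨hy, ?_, ?_⟩
  · simp only; linarith
  · simp only; linarith

end Pool.Agent.TH906.WP
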