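import Pool.Agent.TH906.WP.Div

set_option autoImplicit false

/-!
# The width principle

Points on translates of one-parameter curves in several directions.
-/

namespace Pool.Agent.TH906.WP

open Finset Pool.Agent.TH176.Nag Pool.Agent.TH819.NagA

/-- `(μ + ν)` times the lattice width, in the direction `(a, b)` with `b ≥ 0`, of the triangle with
sides `x = μ y`, `x = 1 - ν y` and base `1`; it is the amount by which the base shrinks after
division by a binomial of direction `(a, b)` -/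
noncomputable def Wd (μ ν : ℝ) (a b : ℤ) : ℝ := max 0 (μ * b - a) + max 0 (a + ν * b)

theorem Wd_nonneg (μ ν : ℝ) (a b : ℤ) : 0 ≤ Wd μ ν a b :=
  add_nonneg (le_max_left _ _) (le_max_left _ _)

section
variable {K : Type*} [Field K]

/-- the point of the curve from its coordinate -/
theorem char_eq {a b p q : ℤ} (hpq : p * a + q * b = 1) {c x y : K} (hx : x ≠ 0) (hy : y ≠ 0)
    (hon : x ^ a * y ^ b = c) (m : ℤ × ℤ) :
    (x ^ (-q) * y ^ p) ^ kap a b m * c ^ tt p q m = x ^ m.1 * y ^ m.2 := by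
  rw [← hon, mul_zpow, mul_zpow, ← zpow_mul, ← zpow_mul, ← zpow_mul, ← zpow_mul]
  have e1 : x ^ (-q * kap a b m) * y ^ (p * kap a b m) * (x ^ (a * tt p q m) * y ^ (b * tt p q m)) =
      x ^ (-q * kap a b m + a * tt p q m) * y ^ (p * kap a b m + b * tt p q m) := by
    rw [zpow_add₀ hx, zpow_add₀ hy]; ring
  rw [e1]
  congr 2
  · unfold kap tt; linear_combination m.1 * hpq
  · unfold kap tt; linear_combination m.2 * hpq

theorem char_inj {a b p q : ℤ} (hpq : p * a + q * b = 1) {c x y x' y' : K} (hx : x ≠ 0)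
    (hy : y ≠ 0) (hx' : x' ≠ 0) (hy' : y' ≠ 0)
    (hon : x ^ a * y ^ b = c) (hon' : x' ^ a * y' ^ b = c)
    (h : x ^ (-q) * y ^ p = x' ^ (-q) * y' ^ p) : x = x' ∧ y = y' := by
  constructor
  · have h1 := char_eq hpq hx hy hon (1, 0)
    have h2 := char_eq hpq hx' hy' hon' (1, 0)
    rw [h, h2] at h1
    simpa using h1.symm
  · have h1 := char_eq hpq hx hy hon (0, 1)
    have h2 := char_eq hpq hx' hy' hon' (0, 1)
    rw [h, h2] at h1
    simpa using h1.symm

/-- the restriction to a curve -/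
noncomputable def rst (a b p q : ℤ) (c : K) (f : (ℤ × ℤ) →₀ K) : ℤ →₀ K :=
  f.sum fun m r => Finsupp.single (kap a b m) (r * c ^ tt p q m)

theorem rst_supp {a b p q : ℤ} {c : K} {f : (ℤ × ℤ) →₀ K} {k : ℤ}
    (hk : k ∈ (rst a b p q c f).support) : ∃ m ∈ f.support, kap a b m = k := by
  classical
  unfold rst Finsupp.sum at hk
  obtain ⟨m, hm, h1⟩ := Finset.mem_biUnion.1 (Finsupp.support_finsetSum hk)
  have h2 := Finsupp.support_single_subset h1
  rw [Finset.mem_singleton] at h2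
  exact ⟨m, hm, h2.symm⟩

theorem rst_zero {a b p q : ℤ} (hpq : p * a + q * b = 1) {c x y : K} (hx : x ≠ 0) (hy : y ≠ 0)
    (hon : x ^ a * y ^ b = c) {f : (ℤ × ℤ) →₀ K} {w : ℕ} (h : LM f x y w) {e : ℕ} (he : e < w) :
    ((rst a b p q c f).sum fun k v => v * ((k : K) ^ e * (x ^ (-q) * y ^ p) ^ k)) = 0 := by
  classical
  have h1 := h _ (PF_lin (a := (a : K)) (b := (b : K)) he)
  unfold rst
  rw [Finsupp.sum_sum_index (by intro k; simp) (by intro k u v; ring)]
  have h2 : ∀ (m : ℤ × ℤ) (r : K), ((Finsupp.single (kap a b m) (r * c ^ tt p q m) : ℤ →₀ K).sum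
      fun k v => v * ((k : K) ^ e * (x ^ (-q) * y ^ p) ^ k)) =
      r * ((a : K) * m.2 - b * m.1) ^ e * (x ^ m.1 * y ^ m.2) := by
    intro m r
    rw [Finsupp.sum_single_index (by simp), ← char_eq hpq hx hy hon m]
    have e1 : ((kap a b m : ℤ) : K) = (a : K) * m.2 - b * m.1 := by unfold kap; push_cast; ring
    rw [e1]
    ring
  simp_rw [h2]
  exact h1

end

section main

variable {K : Type*} [Field K] [CharZero K] {ι I : Type} [Fintype ι] [Fintype I]

open Classical in
/-- the coefficients of the class -/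
noncomputable def Mk (x y : ι → K) (a b : I → ℤ) (c : I → K) (β : I → ℝ) (k : ι) : ℝ :=
  ∑ i, if x k ^ a i * y k ^ b i = c i then β i else 0

theorem Mk_nonneg {x y : ι → K} {a b : I → ℤ} {c : I → K} {β : I → ℝ} (hβ : ∀ i, 0 ≤ β i)
    (k : ι) : 0 ≤ Mk x y a b c β k := by
  classical
  unfold Mk
  refine Finset.sum_nonneg fun i _ => ?_
  split_ifs
  · exact hβ i
  · exact le_rfl

/-- range of the exponents of the restriction -/
theorem kap_range {μ ν A s : ℝ} {a b : ℤ} (hb : 0 ≤ b) (hN : 0 < μ + ν) {m : ℤ × ℤ}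
    (hm : m ∈ Reg A (A + s) μ ν) :
    -(b * A) - (μ * b - a + max 0 (a + ν * b)) * (s / (μ + ν)) ≤ ((kap a b m : ℤ) : ℝ) ∧
    ((kap a b m : ℤ) : ℝ) ≤ -(b * A) + (max 0 (μ * b - a) - (μ * b - a)) * (s / (μ + ν)) := by
  obtain ⟨h1, h2, h3⟩ := hm
  have hb' : (0 : ℝ) ≤ b := by exact_mod_cast hb
  have hj : (0 : ℝ) ≤ m.2 := by exact_mod_cast h1
  obtain ⟨S, hS⟩ : ∃ S, S = s / (μ + ν) := ⟨_, rfl⟩
  have hs : s = S * (μ + ν) := by rw [hS, div_mul_cancel₀ _ hN.ne']
  rw [← hS]
  have hjS : (m.2 : ℝ) ≤ S := by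
    have h4 : (m.2 : ℝ) * (μ + ν) ≤ S * (μ + ν) := by rw [← hs]; linarith
    exact le_of_mul_le_mul_right h4 hN
  have hk : ((kap a b m : ℤ) : ℝ) = a * m.2 - b * m.1 := by unfold kap; push_cast; ring
  rw [hk]
  constructor
  · -- lower bound
    have h5 : (b : ℝ) * m.1 ≤ b * (A + s - ν * m.2) := mul_le_mul_of_nonneg_left h3 hb'
    rcases le_total 0 ((a : ℝ) + ν * b) with h6 | h6
    · rw [max_eq_right h6]
      rw [hs] at h5
      have h7 : 0 ≤ ((a : ℝ) + ν * b) * m.2 := mul_nonneg h6 hj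
      nlinarith
    · rw [max_eq_left h6]
      rw [hs] at h5
      have h7 : 0 ≤ ((a : ℝ) + ν * b) * (m.2 - S) := mul_nonneg_of_nonpos_of_nonpos h6 (by linarith)
      nlinarith
  · have h5 : (b : ℝ) * (A + μ * m.2) ≤ b * m.1 := mul_le_mul_of_nonneg_left h2 hb'
    rcases le_total 0 (μ * b - (a : ℝ)) with h6 | h6
    · rw [max_eq_right h6]
      have h7 : 0 ≤ (μ * b - (a : ℝ)) * m.2 := mul_nonneg h6 hj
      nlinarith
    · rw [max_eq_left h6]
      have h7 : 0 ≤ (μ * b - (a : ℝ)) * (m.2 - S) := mul_nonneg_of_nonpos_of_nonpos h6 (by linarith)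
      nlinarith

/-- the region of the quotient -/
theorem div_reg {μ ν A s : ℝ} {a b : ℤ} (hb : 0 ≤ b) (hv : (a, b) ≠ ((0, 0) : ℤ × ℤ)) {c : K}
    (hc : c ≠ 0) {g : (ℤ × ℤ) →₀ K}
    (h : (↑(mulB a b c g).support : Set (ℤ × ℤ)) ⊆ Reg A (A + s) μ ν) :
    (↑g.support : Set (ℤ × ℤ)) ⊆ Reg (A + max 0 (μ * b - a))
      (A + max 0 (μ * b - a) + (s - Wd μ ν a b)) μ ν := by
  intro m hm
  obtain ⟨⟨i, hi⟩, j, hj⟩ := div_supp hv hc (Finset.mem_coe.1 hm)
  obtain ⟨i1, i2, i3⟩ := h (Finset.mem_coe.2 hi)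
  obtain ⟨j1, j2, j3⟩ := h (Finset.mem_coe.2 hj)
  simp only [Prod.fst_add, Prod.snd_add, Prod.smul_mk, smul_eq_mul, Prod.fst_sub, Prod.snd_sub]
    at i1 i2 i3 j1 j2 j3
  push_cast at i2 i3 j2 j3
  have hi0 : (0 : ℝ) ≤ i := Nat.cast_nonneg i
  have hj0 : (0 : ℝ) ≤ j := Nat.cast_nonneg j
  refine ⟨?_, ?_, ?_⟩
  · have h1 : 0 ≤ (j : ℤ) * b := mul_nonneg (by positivity) hb
    linarith
  · rcases le_total 0 (μ * b - (a : ℝ)) with h6 | h6
    · rw [max_eq_right h6]
      nlinarith [mul_nonneg hi0 h6]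
    · rw [max_eq_left h6]
      nlinarith [mul_nonneg_of_nonpos_of_nonpos (neg_nonpos.2 hj0) h6]
  · unfold Wd
    rcases le_total 0 ((a : ℝ) + ν * b) with h6 | h6
    · rw [max_eq_right h6]
      nlinarith [mul_nonneg hi0 h6]
    · rw [max_eq_left h6]
      nlinarith [mul_nonneg_of_nonpos_of_nonpos (neg_nonpos.2 hj0) h6]

open Classical in
theorem width_main (x y : ι → K) (hx : ∀ k, x k ≠ 0) (hy : ∀ k, y k ≠ 0)
    (hinj : ∀ k l, x k = x l → y k = y l → k = l)
    (a b : I → ℤ) (hco : ∀ i, IsCoprime (a i) (b i)) (hb : ∀ i, 0 ≤ b i) (c : I → K)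
    (hc : ∀ i, c i ≠ 0) (β : I → ℝ) (hβ : ∀ i, 0 ≤ β i) {μ ν : ℝ} (hN : 0 < μ + ν)
    (h1 : ∑ i, β i * Wd μ ν (a i) (b i) ≤ μ + ν)
    (h2 : ∀ i, (∑ k, if x k ^ a i * y k ^ b i = c i then Mk x y a b c β k else 0) ≤
      Wd μ ν (a i) (b i)) (H : ℕ) :
    ∀ (w : ι → ℕ), ∑ k, w k ≤ H → ∀ (A s : ℝ), s < ∑ k, Mk x y a b c β k * w k →
      ∀ f : (ℤ × ℤ) →₀ K, (↑f.support : Set (ℤ × ℤ)) ⊆ Reg A (A + s) μ ν →
        (∀ k, LM f (x k) (y k) (w k)) → f = 0 := by
  have hM : ∀ k, 0 ≤ Mk x y a b c β k := fun k => Mk_nonneg hβ k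
  -- negative size
  have hneg : ∀ (A s : ℝ), s < 0 → ∀ f : (ℤ × ℤ) →₀ K,
      (↑f.support : Set (ℤ × ℤ)) ⊆ Reg A (A + s) μ ν → f = 0 := by
    intro A s hs f hf
    rw [← Finsupp.support_eq_empty, Finset.eq_empty_iff_forall_notMem]
    intro m hm
    obtain ⟨g1, g2, g3⟩ := hf (Finset.mem_coe.2 hm)
    have g4 : (0 : ℝ) ≤ m.2 := by exact_mod_cast g1
    nlinarith [mul_nonneg hN.le g4]
  induction H with
  | zero =>
    intro w hw A s hs f hf hL
    have h3 : ∀ k, w k = 0 := fun k => by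
      have := Finset.single_le_sum (f := w) (fun _ _ => Nat.zero_le _) (Finset.mem_univ k)
      omega
    simp only [h3, Nat.cast_zero, mul_zero, Finset.sum_const_zero] at hs
    exact hneg A s hs f hf
  | succ H ih =>
    intro w hw A s hs f hf hL
    rcases lt_or_ge s 0 with hs0 | hs0
    · exact hneg A s hs0 f hf
    -- a curve on which the restriction vanishes
    obtain ⟨i, hi⟩ : ∃ i, Wd μ ν (a i) (b i) * s < (μ + ν) *
        ∑ k, (if x k ^ a i * y k ^ b i = c i then (w k : ℝ) else 0) := by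
      by_contra hcon
      push Not at hcon
      have h3 : (μ + ν) * ∑ k, Mk x y a b c β k * w k ≤ s * (μ + ν) := by
        have e1 : ∑ k, Mk x y a b c β k * w k =
            ∑ i, β i * ∑ k, (if x k ^ a i * y k ^ b i = c i then (w k : ℝ) else 0) := by
          unfold Mk
          simp_rw [Finset.sum_mul, Finset.mul_sum]
          rw [Finset.sum_comm]
          refine Finset.sum_congr rfl fun i _ => Finset.sum_congr rfl fun k _ => ?_
          split_ifs <;> ring
        rw [e1, Finset.mul_sum]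
        calc ∑ i, (μ + ν) * (β i * ∑ k, (if x k ^ a i * y k ^ b i = c i then (w k : ℝ) else 0))
            = ∑ i, β i * ((μ + ν) * ∑ k, (if x k ^ a i * y k ^ b i = c i then (w k : ℝ) else 0)) :=
              Finset.sum_congr rfl fun i _ => by ring
          _ ≤ ∑ i, β i * (Wd μ ν (a i) (b i) * s) :=
              Finset.sum_le_sum fun i _ => mul_le_mul_of_nonneg_left (hcon i) (hβ i)
          _ = s * ∑ i, β i * Wd μ ν (a i) (b i) := by
              rw [Finset.mul_sum]
              exact Finset.sum_congr rfl fun i _ => by ring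
          _ ≤ s * (μ + ν) := mul_le_mul_of_nonneg_left h1 hs0
      have h4 : s * (μ + ν) < (μ + ν) * ∑ k, Mk x y a b c β k * w k := by
        rw [mul_comm s]
        exact mul_lt_mul_of_pos_left hs hN
      linarith
    obtain ⟨p, q, hpq⟩ := hco i
    have hpq' : p * a i + q * b i = 1 := hpq
    have hv : (a i, b i) ≠ ((0, 0) : ℤ × ℤ) := by
      intro h
      simp only [Prod.mk.injEq] at h
      rw [h.1, h.2] at hpq'
      simp at hpq'
    have hrst : rst (a i) (b i) p q (c i) f = 0 := by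
      refine one_varK (ι := {k // x k ^ a i * y k ^ b i = c i})
        (fun k => x k.1 ^ (-q) * y k.1 ^ p) ?_ ?_ (fun k => w k.1) _
        (-(b i * A) - (μ * b i - a i + max 0 (a i + ν * b i)) * (s / (μ + ν)))
        (-(b i * A) + (max 0 (μ * b i - a i) - (μ * b i - a i)) * (s / (μ + ν))) ?_ ?_ ?_
      · intro k l hkl
        obtain ⟨e1, e2⟩ := char_inj hpq' (hx k.1) (hy k.1) (hx l.1) (hy l.1) k.2 l.2 hkl
        exact Subtype.ext (hinj _ _ e1 e2)
      · intro k
        exact mul_ne_zero (zpow_ne_zero _ (hx k.1)) (zpow_ne_zero _ (hy k.1))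
      · intro z hz
        obtain ⟨m, hm, rfl⟩ := rst_supp hz
        exact kap_range (hb i) hN (hf (Finset.mem_coe.2 hm))
      · have e1 : (∑ k : {k // x k ^ a i * y k ^ b i = c i}, (w k.1 : ℝ)) =
            ∑ k, (if x k ^ a i * y k ^ b i = c i then (w k : ℝ) else 0) := by
          rw [← Finset.sum_filter, ← Finset.sum_subtype_of_mem (p := fun k => x k ^ a i * y k ^ b i = c i)
            (fun k => (w k : ℝ)) (fun k hk => (Finset.mem_filter.1 hk).2)]
          refine Finset.sum_congr ?_ fun _ _ => rfl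
          ext k
          simp [k.2]
        rw [e1]
        have e2 : -((b i : ℝ) * A) + (max 0 (μ * b i - a i) - (μ * b i - a i)) * (s / (μ + ν)) -
            (-((b i : ℝ) * A) - (μ * b i - a i + max 0 (a i + ν * b i)) * (s / (μ + ν))) =
            Wd μ ν (a i) (b i) * s / (μ + ν) := by
          unfold Wd; ring
        rw [e2, div_lt_iff₀ hN, mul_comm _ (μ + ν)]
        exact hi
      · intro k e he
        exact rst_zero hpq' (hx k.1) (hy k.1) k.2 (hL k.1) he
    obtain ⟨g, hg⟩ := exists_div (a i) (b i) p q hpq' (hc i) f hrst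
    have hreg := div_reg (μ := μ) (ν := ν) (A := A) (s := s) (hb i) hv (hc i) (g := g)
      (by rw [hg]; exact hf)
    have hg0 : g = 0 := by
      refine ih (fun k => if x k ^ a i * y k ^ b i = c i then w k - 1 else w k) ?_ _ _ ?_ g hreg ?_
      · -- the sum drops
        have h5 : 0 < ∑ k, (if x k ^ a i * y k ^ b i = c i then (w k : ℝ) else 0) := by
          have h6 : 0 ≤ Wd μ ν (a i) (b i) * s := mul_nonneg (Wd_nonneg _ _ _ _) hs0
          have h7 := lt_of_le_of_lt h6 hi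
          exact (pos_iff_pos_of_mul_pos h7).1 hN
        obtain ⟨k0, -, hk0⟩ := Finset.exists_lt_of_sum_lt (s := Finset.univ)
          (f := fun _ : ι => (0 : ℝ))
          (g := fun k => if x k ^ a i * y k ^ b i = c i then (w k : ℝ) else 0)
          (by rw [Finset.sum_const_zero]; exact h5)
        have h8 : ∑ k, (if x k ^ a i * y k ^ b i = c i then w k - 1 else w k) < ∑ k, w k := by
          refine Finset.sum_lt_sum (fun k _ => ?_) ⟨k0, Finset.mem_univ _, ?_⟩
          · split_ifs <;> omega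
          · split_ifs at hk0 ⊢ with h9
            · have : 0 < w k0 := by exact_mod_cast hk0
              omega
            · exact absurd hk0 (lt_irrefl _)
        omega
      · have h5 : ∑ k, Mk x y a b c β k * w k -
            ∑ k, (if x k ^ a i * y k ^ b i = c i then Mk x y a b c β k else 0) ≤
            ∑ k, Mk x y a b c β k * ((if x k ^ a i * y k ^ b i = c i then w k - 1 else w k : ℕ) : ℝ) := by
          rw [← Finset.sum_sub_distrib]
          refine Finset.sum_le_sum fun k _ => ?_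
          split_ifs
          · have h6 : (w k : ℝ) ≤ ((w k - 1 : ℕ) : ℝ) + 1 := by
              have : w k ≤ (w k - 1) + 1 := by omega
              exact_mod_cast this
            nlinarith [mul_le_mul_of_nonneg_left h6 (hM k)]
          · linarith
        have h6 := h2 i
        linarith
      · intro k
        split_ifs with h9
        · exact LM_div_on hpq' (hc i) (hx k) (hy k) h9 (by rw [hg]; exact hL k)
        · exact LM_div_off hpq' (hx k) (hy k) h9 (by rw [hg]; exact hL k)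
    rw [← hg, hg0, map_zero]

open Classical in
/-- emptiness in the triangles of shape `(μ, ν)` -/
theorem Emp_width {K : Type} [Field K] [CharZero K] (x y : ι → K) (hx : ∀ k, x k ≠ 0)
    (hy : ∀ k, y k ≠ 0) (hinj : ∀ k l, x k = x l → y k = y l → k = l)
    (a b : I → ℤ) (hco : ∀ i, IsCoprime (a i) (b i)) (hb : ∀ i, 0 ≤ b i) (c : I → K)
    (hc : ∀ i, c i ≠ 0) (β : I → ℝ) (hβ : ∀ i, 0 ≤ β i) {μ ν : ℝ} (hN : 0 < μ + ν)
    (h1 : ∑ i, β i * Wd μ ν (a i) (b i) ≤ μ + ν)
    (h2 : ∀ i, (∑ k, if x k ^ a i * y k ^ b i = c i then Mk x y a b c β k else 0) ≤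
      Wd μ ν (a i) (b i)) (w : ι → ℕ) (A s : ℝ) (hs : s < ∑ k, Mk x y a b c β k * w k) :
    Emp w (Reg A (A + s) μ ν) :=
  ⟨K, inferInstance, inferInstance, x, y, hx, hy, fun f hf hL =>
    width_main x y hx hy hinj a b hco hb c hc β hβ hN h1 h2 _ w le_rfl A s hs f hf hL⟩

end main

end Pool.Agent.TH906.WP
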